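import Pool.Agent.CGP.Targets2
import Pool.Agent.PLim.TRANS
import Pool.Agent.MEX.SECX

/-!
# CGP: basic lemmas on cycles, for all `n`
-/

set_option autoImplicit false

open Complex Filter Topology Set
open Pool.Agent.Limb (F)
open Pool.Agent.PLim (Rho)

namespace Pool.Agent.CGP

lemma fix_iter {n K : ℕ} {c z : ℂ} (h : (F n c)^[K] z = z) (j : ℕ) :
    (F n c)^[K] ((F n c)^[j] z) = (F n c)^[j] z := by
  rw [← Function.iterate_add_apply, Nat.add_comm, Function.iterate_add_apply, h]

lemma fix_mul {n K : ℕ} {c z : ℂ} (h : (F n c)^[K] z = z) (m : ℕ) : (F n c)^[K * m] z = z := by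
  rw [Function.iterate_mul]
  exact Function.iterate_fixed h m

lemma fix_mod {n K : ℕ} {c z : ℂ} (h : (F n c)^[K] z = z) (j : ℕ) :
    (F n c)^[j % K] z = (F n c)^[j] z := by
  conv_rhs => rw [← Nat.mod_add_div j K, Function.iterate_add_apply, fix_mul h]

lemma rho_step {n K : ℕ} {c z : ℂ} (h : (F n c)^[K] z = z) :
    Rho n K c (F n c z) = Rho n K c z := by
  rw [Pool.Agent.PLim.TRANS_.Rho_eq, Pool.Agent.PLim.TRANS_.Rho_eq]
  rcases K with _ | K
  · rfl
  · rw [Finset.prod_range_succ, Finset.prod_range_succ']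
    have h1 : (F n c)^[K] (F n c z) = z := by
      rw [← Function.iterate_succ_apply]
      exact h
    rw [h1]
    rfl

/-- the multiplier is constant on a cycle -/
lemma rho_iter {n K : ℕ} {c z : ℂ} (h : (F n c)^[K] z = z) (j : ℕ) :
    Rho n K c ((F n c)^[j] z) = Rho n K c z := by
  induction j with
  | zero => rfl
  | succ j ih =>
    rw [Function.iterate_succ_apply', rho_step (fix_iter h j), ih]

lemma rho_mul {n k : ℕ} {c z : ℂ} (h : (F n c)^[k] z = z) (m : ℕ) :
    Rho n (k * m) c z = Rho n k c z ^ m := Pool.Agent.MEX.SECX_.Rho_pow h m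

/-- An attracting point is not on the cycle of a point of multiplier of modulus `≥ 1`. -/
lemma sep {n k K : ℕ} {c z z' : ℂ} (hk : 1 ≤ k) (hz : (F n c)^[K] z = z)
    (hR : ‖Rho n K c z‖ < 1) (hz' : (F n c)^[k] z' = z') (hR' : 1 ≤ ‖Rho n k c z'‖) (j : ℕ) :
    (F n c)^[j] z ≠ z' := by
  intro h
  have h1 : (F n c)^[K] z' = z' := by
    rw [← h]
    exact fix_iter hz j
  have h2 : Rho n K c z' = Rho n K c z := by
    rw [← h]
    exact rho_iter hz j
  have h3 : Rho n (K * k) c z' = Rho n K c z' ^ k := rho_mul h1 k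
  have h4 : Rho n (k * K) c z' = Rho n k c z' ^ K := rho_mul hz' K
  rw [Nat.mul_comm, h4, h2] at h3
  have h5 : ‖Rho n K c z ^ k‖ < 1 := by
    rw [norm_pow]
    exact pow_lt_one₀ (norm_nonneg _) hR (by omega)
  rw [← h3, norm_pow] at h5
  exact absurd h5 (not_lt.2 (one_le_pow₀ hR'))

end Pool.Agent.CGP
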