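import Pool.Agent.CUSP.Targets2

/-!
# CGP: definitions

A gap for the multipliers of the repelling cycles at the centres of the Multibrot sets
(MP_fcb70f_an, clause (5) of Extension).
-/

set_option autoImplicit false

open Complex Filter Topology Set
open Pool.Agent.Limb (F)
open Pool.Agent.PLim (Rho)

namespace Pool.Agent.CGP

/-- `0` has period `K` under `z ^ n + c`, and `z` is a repelling cycle of exact period `k`. -/
structure Dt (n K k : ℕ) (c : ℂ) (z : ℕ → ℂ) : Prop where
  hn : 2 ≤ n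
  hK : 1 ≤ K
  cen : (F n c)^[K] 0 = 0
  hk : 1 ≤ k
  stp : ∀ l, F n c (z l) = z (l + 1)
  per : ∀ l, z (l + k) = z l
  dst : ∀ l m, l < k → m < k → z l = z m → l = m
  rep : 1 < ‖Rho n k c (z 0)‖

/-- The orbit of the critical value. -/
def PP (n K : ℕ) (c : ℂ) : Set ℂ := {x : ℂ | ∃ j < K, x = (F n c)^[j] c}

/-- The distance to the orbit of the critical value. -/
noncomputable def Rp (n K : ℕ) (c ζ : ℂ) : ℝ := Metric.infDist ζ (PP n K c)

/-- `G` is the branch on the disc `ball ζ (Rp n K c ζ)` of the inverse of the iterate of order `m`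
which fixes `ζ`. -/
structure Bn (n K m : ℕ) (c ζ : ℂ) (G : ℂ → ℂ) : Prop where
  dif : DifferentiableOn ℂ G (Metric.ball ζ (Rp n K c ζ))
  inj : InjOn G (Metric.ball ζ (Rp n K c ζ))
  fix : G ζ = ζ
  inv : ∀ x ∈ Metric.ball ζ (Rp n K c ζ), (F n c)^[m] (G x) = x

end Pool.Agent.CGP
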