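import Pool.Agent.CGP.Targets

/-!
CGP-BRN: the branch of the inverse on the disc.
-/

set_option autoImplicit false

open Complex Filter Topology Set
open Pool.Agent.Limb (F)
open Pool.Agent.PLim (Rho)

namespace Pool.Agent.CGP

theorem p_BRN (h1 : T_LFN) (h2 : T_FAC) : T_BRN := by
  intro n K k c z hD l q
  obtain ⟨_, a2, _, a4, _⟩ := h2 n K k c z hD
  obtain ⟨b1, _, b3⟩ := a2 l
  obtain ⟨d1, _⟩ := a4 q l
  have hW : ∀ t ∈ Metric.ball (z l) (Rp n K c (z l)), ∀ j < k * q,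
      (fun x : ℂ => x) t ≠ (F n c)^[j] c := by
    intro t ht j _ hc
    have hc' : t = (F n c)^[j] c := hc
    have h3 := b3 j
    rw [Metric.mem_ball, dist_comm, dist_eq_norm, hc'] at ht
    linarith
  obtain ⟨g, g1, g2, g3⟩ := h1 n c (k * q) (Metric.ball (z l) (Rp n K c (z l)))
    (fun x => x) hD.hn Metric.isOpen_ball (convex_ball _ _) differentiableOn_id hW (z l)
    (Metric.mem_ball_self b1) (z l) d1
  refine ⟨g, ⟨g1, ?_, g2, g3⟩⟩
  intro x hx y hy hxy
  have h4 := g3 x hx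
  rw [hxy, g3 y hy] at h4
  exact h4.symm

end Pool.Agent.CGP
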