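import Pool.Agent.CGP.Targets

/-!
# CGP, target COG: continuation of a branch close to the identity
-/

set_option autoImplicit false

open Complex Filter Topology Set
open Pool.Agent.Limb (F)
open Pool.Agent.PLim (Rho)

namespace Pool.Agent.CGP

namespace COG_

/-- The square root in the bound of TCR. -/
theorem sqrt_aux (e A ρ : ℝ) (he : 0 ≤ e) (hA : 0 ≤ A) (hρ : 0 < ρ) :
    6 * √(e * ρ * (A * ρ)) = 6 * √A * √e * ρ := by
  have h1 : e * ρ * (A * ρ) = A * e * ρ ^ 2 := by ring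
  rw [h1, Real.sqrt_mul (mul_nonneg hA he), Real.sqrt_mul hA, Real.sqrt_sq hρ.le]
  ring

/-- The derivative of a function close to the identity. -/
theorem deriv_bd (g : ℂ → ℂ) (p : ℂ) (r m : ℝ) (hr : 0 < r) (U : Set ℂ) (hU : IsOpen U)
    (hd : DifferentiableOn ℂ g U) (hs : Metric.closedBall p r ⊆ U)
    (hb : ∀ x ∈ Metric.sphere p r, ‖g x - x‖ ≤ m) : ‖deriv g p‖ ≤ 1 + m / r := by
  have hpU : p ∈ U := hs (Metric.mem_closedBall_self hr.le)
  have hgd : DifferentiableAt ℂ g p := (hd p hpU).differentiableAt (hU.mem_nhds hpU)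
  have hf : DifferentiableOn ℂ (fun x => g x - x) U := hd.sub differentiableOn_id
  have hcl : DiffContOnCl ℂ (fun x => g x - x) (Metric.ball p r) :=
    hf.diffContOnCl_ball hs
  have h1 := Complex.norm_deriv_le_of_forall_mem_sphere_norm_le hr hcl hb
  have h2 : deriv (fun x => g x - x) p = deriv g p - 1 := by
    rw [deriv_fun_sub hgd differentiableAt_fun_id]
    simp
  rw [h2] at h1
  have h3 : deriv g p = 1 + (deriv g p - 1) := by ring
  calc ‖deriv g p‖ = ‖1 + (deriv g p - 1)‖ := by rw [← h3]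
    _ ≤ ‖(1 : ℂ)‖ + ‖deriv g p - 1‖ := norm_add_le _ _
    _ ≤ 1 + m / r := by simpa using h1

end COG_

open COG_ in
theorem p_COG (h₁ : T_LFN) (h₂ : T_LUN) (h₃ : T_CRN) (h₄ : Pool.Agent.CUSP.T_KDI)
    (h₅ : Pool.Agent.AEN.T_TCR) : T_COG := by
  obtain ⟨C0, hC0, hK⟩ := h₄
  refine ⟨6 * √(C0 + 1), ?_, ?_⟩
  · have h1 : (1 : ℝ) ≤ √(C0 + 1) := by
      exact Real.one_le_sqrt.2 (by linarith)
    linarith
  intro n m c y y' ρ e g hn hρ he he1 hyy hcr hgd hgi hgb
  have hy' : y' ∈ Metric.ball y ρ := by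
    rw [Metric.mem_ball, dist_eq_norm]
    linarith
  have hy0 : y' ∈ Metric.ball y' ρ := Metric.mem_ball_self hρ
  obtain ⟨g', hgd', hg0, hgi'⟩ := h₁ n c m (Metric.ball y' ρ) (fun x => x) hn Metric.isOpen_ball
    (convex_ball _ _) differentiableOn_id (fun t ht j hj => hcr t ht j hj) y' hy0 (g y')
    (hgi y' hy')
  have heq : EqOn g g' (Metric.ball y ρ ∩ Metric.ball y' ρ) := by
    refine h₂ n c m (Metric.ball y ρ ∩ Metric.ball y' ρ) g g' y' ?_ ?_ ?_ ?_ ⟨hy', hy0⟩ hg0.symm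
    · exact ((convex_ball _ _).inter (convex_ball _ _)).isPreconnected
    · exact hgd.continuousOn.mono inter_subset_left
    · exact hgd'.continuousOn.mono inter_subset_right
    · intro t ht
      refine ⟨by rw [hgi t ht.1, hgi' t ht.2], ?_⟩
      refine (h₃ n c m (g t) hn).2 ?_
      intro j hj
      rw [hgi t ht.1]
      exact hcr t ht.2 j hj
  have hb : ∀ x : ℂ, ‖x - y'‖ ≤ ρ / 12 → ‖g' x - x‖ ≤ e * ρ := by
    intro x hx
    have h1 : ‖x - y‖ ≤ ρ / 6 := by
      have h2 : x - y = (x - y') + (y' - y) := by ring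
      rw [h2]
      refine (norm_add_le _ _).trans ?_
      linarith
    have h3 : x ∈ Metric.ball y ρ ∩ Metric.ball y' ρ := by
      constructor
      · rw [Metric.mem_ball, dist_eq_norm]
        linarith
      · rw [Metric.mem_ball, dist_eq_norm]
        linarith
    rw [← heq h3]
    exact hgb x h1
  have hder : ‖deriv g' y'‖ ≤ 1 + (e * ρ) / (ρ / 12) := by
    refine deriv_bd g' y' (ρ / 12) (e * ρ) (by linarith) (Metric.ball y' ρ) Metric.isOpen_ball
      hgd' ?_ ?_
    · exact Metric.closedBall_subset_ball (by linarith)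
    · intro x hx
      refine hb x ?_
      rw [Metric.mem_sphere, dist_eq_norm] at hx
      exact hx.le
  have hder' : ‖deriv g' y'‖ ≤ 28 / 25 := by
    have h1 : (e * ρ) / (ρ / 12) = 12 * e := by
      field_simp
    rw [h1] at hder
    linarith
  have hinj : InjOn g' (Metric.ball y' ρ) := by
    intro x hx x' hx' hxx
    rw [← hgi' x hx, ← hgi' x' hx', hxx]
  have hbig : ∀ x : ℂ, ‖x - y'‖ ≤ ρ / 2 → ‖g' x - x‖ ≤ (C0 + 1) * ρ := by
    intro x hx
    have h1 := ((hK y' ρ g' hρ hgd' hinj).2.2 x hx).2.2.1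
    have h2 : ‖g' y' - y'‖ ≤ e * ρ := hb y' (by simp; linarith)
    have h3 : g' x - x = (g' x - g' y') + (g' y' - y') + (y' - x) := by ring
    have h4 : ‖y' - x‖ ≤ ρ / 2 := by rw [norm_sub_rev]; exact hx
    have h5 : C0 * ‖deriv g' y'‖ * ‖x - y'‖ ≤ C0 * (28 / 25) * (ρ / 2) := by
      have h6 : C0 * ‖deriv g' y'‖ ≤ C0 * (28 / 25) :=
        mul_le_mul_of_nonneg_left hder' (by linarith)
      exact mul_le_mul h6 hx (norm_nonneg _) (by nlinarith)
    have h7 : e * ρ ≤ 1 / 100 * ρ := mul_le_mul_of_nonneg_right he1 hρ.le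
    have h8 : 0 ≤ (C0 - 1) * ρ := mul_nonneg (by linarith) hρ.le
    rw [h3]
    refine (norm_add₃_le).trans ?_
    nlinarith
  refine ⟨g', hgd', hgi', ?_⟩
  intro x hx
  have hT := h₅ y' (ρ / 2) ((C0 + 1) * ρ) (e * ρ) (fun x => g' x - x) (by linarith)
    (mul_nonneg (by linarith) hρ.le) (mul_nonneg he hρ.le)
    ((hgd'.mono (Metric.ball_subset_ball (by linarith))).sub differentiableOn_id)
    ?_ ?_ x (by linarith)
  · rw [sqrt_aux e (C0 + 1) ρ he (by linarith) hρ] at hT
    exact hT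
  · intro w hw
    rw [Metric.mem_ball, dist_eq_norm] at hw
    exact hbig w hw.le
  · intro w hw
    rw [Metric.mem_ball, dist_eq_norm] at hw
    exact hb w (by linarith)


end Pool.Agent.CGP
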