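import Pool.Agent.CGP.Targets

/-!
# CGP, target CRN: critical points of the iterates
-/

set_option autoImplicit false

open Complex Filter Topology Set
open Pool.Agent.Limb (F)
open Pool.Agent.PLim (Rho)

namespace Pool.Agent.CGP

namespace CRN_

theorem hasDeriv (n : ℕ) (c : ℂ) (m : ℕ) (x : ℂ) :
    HasDerivAt ((F n c)^[m])
      (∏ i ∈ Finset.range m, ((n : ℂ) * ((F n c)^[i] x) ^ (n - 1))) x := by
  induction m with
  | zero => simpa using hasDerivAt_id x
  | succ m ih =>
    rw [Function.iterate_succ', Finset.prod_range_succ, mul_comm]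
    have h1 : HasDerivAt (F n c) ((n : ℂ) * ((F n c)^[m] x) ^ (n - 1)) ((F n c)^[m] x) := by
      have h2 : HasDerivAt (fun z : ℂ => z ^ n + c) ((n : ℂ) * ((F n c)^[m] x) ^ (n - 1))
          ((F n c)^[m] x) := by
        have h3 := (hasDerivAt_pow n ((F n c)^[m] x)).add_const c
        simpa using h3
      exact h2
    exact h1.comp x ih

end CRN_

open CRN_ in
theorem p_CRN : T_CRN := by
  intro n c m x hn
  have h := (hasDeriv n c m x).deriv
  refine ⟨h, ?_⟩
  intro hne h0
  rw [h, Finset.prod_eq_zero_iff] at h0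
  obtain ⟨i, hi, hi0⟩ := h0
  rw [Finset.mem_range] at hi
  have hi1 : (F n c)^[i] x = 0 := by
    rcases mul_eq_zero.1 hi0 with h2 | h2
    · exact absurd h2 (Nat.cast_ne_zero.2 (by omega))
    · exact eq_zero_of_pow_eq_zero h2
  have hi2 : (F n c)^[i + 1] x = c := by
    rw [Function.iterate_succ_apply', hi1]
    have hn0 : n ≠ 0 := by omega
    simp [F, hn0]
  refine hne (m - (i + 1)) (by omega) ?_
  have h3 : m = (m - (i + 1)) + (i + 1) := by omega
  calc (F n c)^[m] x = (F n c)^[(m - (i + 1)) + (i + 1)] x := by rw [← h3]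
    _ = (F n c)^[m - (i + 1)] ((F n c)^[i + 1] x) := Function.iterate_add_apply _ _ _ _
    _ = (F n c)^[m - (i + 1)] c := by rw [hi2]

end Pool.Agent.CGP
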