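import Pool.Agent.CGP.Targets

/-!
# CGP, CTR: the count
-/

set_option autoImplicit false

open Complex Filter Topology Set MeasureTheory
open Pool.Agent.Limb (F)
open Pool.Agent.PLim (Rho)

namespace Pool.Agent.CGP

namespace CTR_

/-- the choice of the number of tips -/
theorem ex_n (A : ℝ) : ∃ n : ℕ, ((n : ℝ) + 6) * A + 49 < (2 : ℝ) ^ n := by
  obtain ⟨m, hm⟩ := exists_nat_ge A
  refine ⟨4 * m + 16, ?_⟩
  have h1 : (m : ℝ) + 1 ≤ (2 : ℝ) ^ m := by
    have : m + 1 ≤ 2 ^ m := Nat.lt_two_pow_self
    exact_mod_cast this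
  have h0 : (0 : ℝ) ≤ m := Nat.cast_nonneg m
  have h2 : ((m : ℝ) + 1) ^ 4 ≤ ((2 : ℝ) ^ m) ^ 4 := by gcongr
  have h3 : (2 : ℝ) ^ (4 * m + 16) = ((2 : ℝ) ^ m) ^ 4 * 65536 := by
    rw [pow_add, ← pow_mul, mul_comm 4 m]
    norm_num
  have h4 : ((4 * m + 16 : ℕ) : ℝ) = 4 * m + 16 := by push_cast; ring
  rw [h3, h4]
  have h5 : ((4 * (m : ℝ) + 16) + 6) * A ≤ ((4 * (m : ℝ) + 16) + 6) * m := by gcongr
  have h6 : ((m : ℝ) + 1) ^ 2 ≤ ((m : ℝ) + 1) ^ 4 := by
    have : (1 : ℝ) ≤ ((m : ℝ) + 1) ^ 2 := by nlinarith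
    calc ((m : ℝ) + 1) ^ 2 = ((m : ℝ) + 1) ^ 2 * 1 := by ring
      _ ≤ ((m : ℝ) + 1) ^ 2 * ((m : ℝ) + 1) ^ 2 := by gcongr
      _ = _ := by ring
  nlinarith

/-- the scale -/
theorem ex_i {s0 R : ℝ} (hR : 0 < R) (hs : R < s0) :
    ∃ i : ℕ, s0 / 2 ^ (i + 1) ≤ R ∧ R < s0 / 2 ^ i := by
  have hs0 : 0 < s0 := hR.trans hs
  have hex : ∃ i : ℕ, s0 / 2 ^ (i + 1) ≤ R := by
    obtain ⟨i, hi⟩ := exists_nat_gt (s0 / R)
    refine ⟨i, ?_⟩
    have h1 : (i : ℝ) ≤ 2 ^ (i + 1) := by
      have : i ≤ 2 ^ (i + 1) := (Nat.lt_two_pow_self).le.trans (Nat.pow_le_pow_right (by norm_num)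
        (Nat.le_succ i))
      exact_mod_cast this
    rw [div_le_iff₀ (by positivity)]
    rw [div_lt_iff₀ hR] at hi
    calc s0 ≤ i * R := hi.le
      _ ≤ 2 ^ (i + 1) * R := by gcongr
      _ = R * 2 ^ (i + 1) := by ring
  classical
  refine ⟨Nat.find hex, Nat.find_spec hex, ?_⟩
  rcases Nat.eq_zero_or_pos (Nat.find hex) with h | h
  · rw [h]; simpa using hs
  · have h2 := Nat.find_min hex (Nat.sub_lt h one_pos)
    rw [not_le] at h2
    have h3 : Nat.find hex - 1 + 1 = Nat.find hex := by omega
    rwa [h3] at h2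

end CTR_

open CTR_ in
theorem p_CTR (h1 : Pool.Agent.CUSP.T_PAK) (h2 : Pool.Agent.CUSP.T_NET) : T_CTR := by
  intro η R hη hη1
  classical
  set A : ℝ := (1 + 12 / η) ^ 2 with hA
  have hA0 : 0 ≤ A := by positivity
  obtain ⟨n, hn⟩ := ex_n (R * A)
  refine ⟨2 ^ n, Nat.one_le_two_pow, ?_⟩
  intro K k zz tt r hk hKR hr hsep hf
  set J : ℕ := n + 6 with hJ
  set T : Finset ℂ := Finset.univ.image tt with hT
  have hTc : T.card ≤ R * k := by
    refine (Finset.card_image_le.trans ?_).trans hKR
    simp
  set s0 : ℝ := ∑ l, r l + 1 with hs0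
  have hrs : ∀ l, r l < s0 := by
    intro l
    have : r l ≤ ∑ l, r l := Finset.single_le_sum (fun i _ => (hr i).le) (Finset.mem_univ l)
    linarith
  have hs0p : 0 < s0 := by
    have : 0 ≤ ∑ l, r l := Finset.sum_nonneg (fun i _ => (hr i).le)
    linarith
  obtain ⟨N, hN⟩ := h2 T s0 hs0p
  choose il hi1 hi2 using fun l => ex_i (hr l) (hrs l)
  have hNmono : Monotone N := monotone_nat_of_le_succ (fun n => (hN n).1)
  have hzinj : ∀ l m, zz l = zz m → l = m := by
    intro l m h
    by_contra hne
    have h3 := hsep l m hne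
    rw [h, sub_self, norm_zero] at h3
    have := mul_pos hη (hr l)
    linarith
  -- the sets
  let E : Fin k → Finset ℂ := fun l =>
    ((N (il l + J)).filter (fun y => ‖y - zz l‖ ≤ 3 * r l)) \ N (il l)
  have hE : ∀ l, ((2 : ℝ) ^ n) - 49 ≤ (E l).card := by
    intro l
    set B : Finset ℂ := (N (il l + J)).filter (fun y => ‖y - zz l‖ ≤ 3 * r l) with hB
    set D : Finset ℂ := (N (il l)).filter (fun y => ‖y - zz l‖ ≤ 3 * r l) with hD
    have hBc : 2 ^ n ≤ B.card := by
      obtain ⟨f, hf1, hf2⟩ := hf l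
      have hmem : ∀ i, tt (f i) ∈ T := fun i => Finset.mem_image_of_mem _ (Finset.mem_univ _)
      choose y hy1 hy2 using fun i => (hN (il l + J)).2.2.2 (tt (f i)) (hmem i)
      have hsc : s0 / 2 ^ (il l + J) ≤ r l / (32 * (2 : ℝ) ^ n) := by
        have e : s0 / 2 ^ (il l + J) = (s0 / 2 ^ (il l + 1)) / (32 * (2 : ℝ) ^ n) := by
          rw [div_div]
          congr 1
          rw [hJ]
          rw [show il l + (n + 6) = il l + 1 + 5 + n by ring, pow_add, pow_add _ (il l + 1) 5]
          norm_num
          ring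
        rw [e]
        gcongr
        exact hi1 l
      have hinj : Function.Injective y := by
        intro i i' h
        by_contra hne
        have h3 := hf2 i i' hne
        have h4 : ‖tt (f i) - tt (f i')‖ < r l / (32 * (2 : ℝ) ^ n) + r l / (32 * (2 : ℝ) ^ n) := by
          have e : tt (f i) - tt (f i') = (tt (f i) - y i) - (tt (f i') - y i') := by
            rw [h]; ring
          rw [e]
          refine (norm_sub_le _ _).trans_lt ?_
          have := hy2 i
          have := hy2 i'
          linarith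
        have h5 : r l / (32 * (2 : ℝ) ^ n) + r l / (32 * (2 : ℝ) ^ n) = r l / (16 * 2 ^ n) := by
          field_simp
          ring
        rw [h5] at h4
        push_cast at h3
        linarith
      have himg : Finset.univ.image y ⊆ B := by
        intro x hx
        rw [Finset.mem_image] at hx
        obtain ⟨i, -, rfl⟩ := hx
        rw [hB, Finset.mem_filter]
        refine ⟨hy1 i, ?_⟩
        have e : y i - zz l = (tt (f i) - zz l) - (tt (f i) - y i) := by ring
        rw [e]
        refine (norm_sub_le _ _).trans ?_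
        have h3 := hf1 i
        have h4 := hy2 i
        have h5 : r l / (32 * (2 : ℝ) ^ n) ≤ r l := by
          rw [div_le_iff₀ (by positivity)]
          have : (1 : ℝ) ≤ (2 : ℝ) ^ n := one_le_pow₀ (by norm_num)
          nlinarith [hr l]
        linarith
      have h6 := Finset.card_le_card himg
      rw [Finset.card_image_of_injective _ hinj] at h6
      simpa using h6
    have hDc : (D.card : ℝ) ≤ 49 := by
      have hsp : 0 < s0 / 2 ^ (il l) := by positivity
      have h3 := h1 (zz l) (3 * r l) (s0 / 2 ^ (il l)) D hsp (by have := hr l; positivity)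
        (fun y hy => (Finset.mem_filter.mp hy).2)
        (fun y hy y' hy' hne => (hN (il l)).2.2.1 y (Finset.mem_filter.mp hy).1 y'
          (Finset.mem_filter.mp hy').1 hne)
      refine h3.trans ?_
      have h4 : 2 * (3 * r l) / (s0 / 2 ^ (il l)) ≤ 6 := by
        rw [div_le_iff₀ hsp]
        have := hi2 l
        linarith
      have h5 : 0 ≤ 2 * (3 * r l) / (s0 / 2 ^ (il l)) := by
        have := hr l
        positivity
      nlinarith
    have hsub : B ⊆ E l ∪ D := by
      intro y hy
      rw [Finset.mem_union]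
      by_cases h : y ∈ N (il l)
      · right
        rw [hD, Finset.mem_filter]
        exact ⟨h, (Finset.mem_filter.mp hy).2⟩
      · left
        show y ∈ B \ N (il l)
        rw [Finset.mem_sdiff]
        exact ⟨hy, h⟩
    have h7 := (Finset.card_le_card hsub).trans (Finset.card_union_le _ _)
    have h8 : ((2 ^ n : ℕ) : ℝ) ≤ (E l).card + D.card := by
      have := hBc.trans h7
      exact_mod_cast this
    push_cast at h8
    linarith
  have hET : ∀ l, E l ⊆ T := by
    intro l y hy
    have h3 := (Finset.mem_sdiff.mp hy).1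
    exact (hN _).2.1 (Finset.mem_filter.mp h3).1
  -- the number of indices for a fixed point
  have hL : ∀ y ∈ T, (((Finset.univ : Finset (Fin k)).filter (fun l => y ∈ E l)).card : ℝ) ≤
      J * A := by
    intro y hy
    set L : Finset (Fin k) := Finset.univ.filter (fun l => y ∈ E l) with hLdef
    by_cases hemp : ∃ m, y ∈ N m
    · set b := Nat.find hemp with hb
      have hb1 : ∀ l ∈ L, il l < b ∧ b ≤ il l + J := by
        intro l hl
        have h3 := (Finset.mem_filter.mp hl).2
        have h4 := Finset.mem_sdiff.mp h3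
        have h5 := (Finset.mem_filter.mp h4.1).1
        refine ⟨?_, Nat.find_min' hemp h5⟩
        by_contra hcon
        rw [not_lt] at hcon
        exact h4.2 (hNmono hcon (Nat.find_spec hemp))
      have hmaps : ∀ l ∈ L, il l ∈ Finset.Ico (b - J) b := by
        intro l hl
        have h3 := hb1 l hl
        rw [Finset.mem_Ico]
        omega
      have hfib : ∀ i ∈ Finset.Ico (b - J) b, ((L.filter (fun l => il l = i)).card : ℝ) ≤ A := by
        intro i _
        set M := L.filter (fun l => il l = i) with hM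
        have hcard : (M.image zz).card = M.card :=
          Finset.card_image_of_injOn (fun l _ m _ h => hzinj l m h)
        have hsp : 0 < η * (s0 / 2 ^ (i + 1)) := by positivity
        have hrp : 0 ≤ 3 * (s0 / 2 ^ i) := by positivity
        have h3 := h1 y (3 * (s0 / 2 ^ i)) (η * (s0 / 2 ^ (i + 1))) (M.image zz) hsp hrp ?_ ?_
        · rw [hcard] at h3
          refine h3.trans (le_of_eq ?_)
          rw [hA]
          congr 2
          rw [pow_succ]
          field_simp
          norm_num
        · intro x hx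
          rw [Finset.mem_image] at hx
          obtain ⟨l, hl, rfl⟩ := hx
          have h4 := Finset.mem_filter.mp hl
          have h5 := (Finset.mem_filter.mp h4.1).2
          have h6 := (Finset.mem_filter.mp (Finset.mem_sdiff.mp h5).1).2
          rw [norm_sub_rev]
          have h7 := hi2 l
          rw [h4.2] at h7
          linarith
        · intro x hx x' hx' hne
          rw [Finset.mem_image] at hx hx'
          obtain ⟨l, hl, rfl⟩ := hx
          obtain ⟨m, hm, rfl⟩ := hx'
          have hlm : l ≠ m := fun h => hne (by rw [h])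
          refine le_trans ?_ (hsep l m hlm)
          have h4 := (Finset.mem_filter.mp hl).2
          have h5 := hi1 l
          rw [h4] at h5
          gcongr
      have h6 := Finset.card_eq_sum_card_fiberwise hmaps
      have h7 : (L.card : ℝ) = ∑ i ∈ Finset.Ico (b - J) b,
          ((L.filter (fun l => il l = i)).card : ℝ) := by
        rw [h6]; push_cast; rfl
      rw [h7]
      refine (Finset.sum_le_sum hfib).trans ?_
      rw [Finset.sum_const, nsmul_eq_mul]
      have h8 : ((Finset.Ico (b - J) b).card : ℝ) ≤ J := by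
        have : (Finset.Ico (b - J) b).card ≤ J := by rw [Nat.card_Ico]; omega
        exact_mod_cast this
      gcongr
    · have hLe : L = ∅ := by
        rw [Finset.eq_empty_iff_forall_notMem]
        intro l hl
        have h3 := (Finset.mem_filter.mp hl).2
        exact hemp ⟨_, (Finset.mem_filter.mp (Finset.mem_sdiff.mp h3).1).1⟩
      rw [hLe]
      simp only [Finset.card_empty, Nat.cast_zero]
      positivity
  -- double counting
  have hdc : ∑ l : Fin k, (E l).card = ∑ y ∈ T, (Finset.univ.filter (fun l => y ∈ E l)).card := by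
    have h3 := Finset.sum_card_bipartiteAbove_eq_sum_card_bipartiteBelow
      (s := (Finset.univ : Finset (Fin k))) (t := T) (fun l y => y ∈ E l)
    have h4 : ∀ l, Finset.bipartiteAbove (fun l y => y ∈ E l) T l = E l := by
      intro l
      ext y
      rw [Finset.mem_bipartiteAbove]
      exact ⟨fun h => h.2, fun h => ⟨hET l h, h⟩⟩
    simp only [h4] at h3
    exact h3
  have hlow : (k : ℝ) * ((2 : ℝ) ^ n - 49) ≤ ∑ l : Fin k, ((E l).card : ℝ) := by
    have h3 : ∑ _l : Fin k, ((2 : ℝ) ^ n - 49) ≤ ∑ l : Fin k, ((E l).card : ℝ) :=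
      Finset.sum_le_sum (fun l _ => hE l)
    rw [Finset.sum_const, nsmul_eq_mul, Finset.card_univ, Fintype.card_fin] at h3
    exact h3
  have hup : ∑ y ∈ T, ((Finset.univ.filter (fun l => y ∈ E l)).card : ℝ) ≤
      k * (J * (R * A)) := by
    refine (Finset.sum_le_sum hL).trans ?_
    rw [Finset.sum_const, nsmul_eq_mul]
    have h3 : (T.card : ℝ) ≤ R * k := by exact_mod_cast hTc
    have h4 : (0 : ℝ) ≤ J * A := by positivity
    calc (T.card : ℝ) * (J * A) ≤ (R * k) * (J * A) := by gcongr
      _ = k * (J * (R * A)) := by ring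
  have hdc' : ∑ l : Fin k, ((E l).card : ℝ) =
      ∑ y ∈ T, ((Finset.univ.filter (fun l => y ∈ E l)).card : ℝ) := by
    exact_mod_cast hdc
  rw [hdc'] at hlow
  have hk1 : (1 : ℝ) ≤ k := by exact_mod_cast hk
  have hfin : (k : ℝ) * ((2 : ℝ) ^ n - 49) ≤ k * (J * (R * A)) := hlow.trans hup
  have hfin2 : (2 : ℝ) ^ n - 49 ≤ J * (R * A) := le_of_mul_le_mul_left hfin (by linarith)
  rw [hJ] at hfin2
  push_cast at hfin2
  linarith

end Pool.Agent.CGP
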