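import Pool.Agent.CGP.Targets

/-!
# CGP, target `T_DIR`: Dirichlet
-/

set_option autoImplicit false

open Complex Filter Topology Set

namespace Pool.Agent.CGP

namespace DIR_

theorem exp_near (x : ℝ) : ‖Complex.exp (x * I) - 1‖ ≤ |x| := by
  have h := Real.norm_exp_I_mul_ofReal_sub_one_le (x := x)
  rw [mul_comm] at h
  simpa [Real.norm_eq_abs] using h

theorem pow_near {e : ℝ} (he : 0 ≤ e) (m : ℕ) : (1 + e) ^ m ≤ Real.exp (m * e) := by
  have h1 : 1 + e ≤ Real.exp e := by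
    have := Real.add_one_le_exp e
    linarith
  calc (1 + e) ^ m ≤ (Real.exp e) ^ m := by gcongr
    _ = Real.exp (m * e) := by rw [← Real.exp_nat_mul]

end DIR_

open DIR_ in
theorem p_DIR : T_DIR := by
  intro M ε hε
  obtain ⟨N, hN⟩ := exists_nat_gt (4 * Real.pi / ε)
  have hpi := Real.pi_pos
  have hN0 : 0 < N := by
    have h1 : (0 : ℝ) < N := lt_trans (by positivity) hN
    exact_mod_cast h1
  obtain ⟨m, hm⟩ : ∃ m : ℕ, m = max M 1 * N := ⟨_, rfl⟩
  have hlog : 0 < Real.log (1 + ε / 2) := Real.log_pos (by linarith)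
  refine ⟨Real.log (1 + ε / 2) / (m + 1), by positivity, ?_⟩
  obtain ⟨e, he⟩ : ∃ e : ℝ, e = Real.log (1 + ε / 2) / (m + 1) := ⟨_, rfl⟩
  rw [← he]
  have he0 : 0 < e := by
    rw [he]
    positivity
  intro w hw1 hw2
  obtain ⟨q', hq1, hq2, hq3⟩ := Real.exists_nat_abs_mul_sub_round_le
    (((max M 1 : ℕ) : ℝ) * w.arg / (2 * Real.pi)) hN0
  obtain ⟨p, hp⟩ : ∃ p : ℤ, p = round ((q' : ℝ) * (((max M 1 : ℕ) : ℝ) * w.arg /
    (2 * Real.pi))) := ⟨_, rfl⟩
  rw [← hp] at hq3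
  have hM1 : 1 ≤ max M 1 := le_max_right _ _
  have hMM : M ≤ max M 1 := le_max_left _ _
  have hqq : max M 1 ≤ max M 1 * q' := Nat.le_mul_of_pos_right _ hq1
  refine ⟨max M 1 * q', hM1.trans hqq, hMM.trans hqq, ?_⟩
  obtain ⟨q, hq⟩ : ∃ q : ℕ, q = max M 1 * q' := ⟨_, rfl⟩
  rw [← hq]
  have hqm : q ≤ m := by
    rw [hq, hm]
    exact Nat.mul_le_mul_left _ hq2
  obtain ⟨δ, hδ⟩ : ∃ δ : ℝ, δ = (q : ℝ) * w.arg - p * (2 * Real.pi) := ⟨_, rfl⟩
  have hδ1 : |δ| ≤ ε / 2 := by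
    have h1 : δ = 2 * Real.pi * ((q' : ℝ) * (((max M 1 : ℕ) : ℝ) * w.arg / (2 * Real.pi)) - p) := by
      rw [hδ, hq]
      push_cast
      field_simp
    rw [h1, abs_mul, abs_of_pos (by positivity : (0 : ℝ) < 2 * Real.pi)]
    calc 2 * Real.pi * |(q' : ℝ) * (((max M 1 : ℕ) : ℝ) * w.arg / (2 * Real.pi)) - p|
        ≤ 2 * Real.pi * (1 / (N + 1)) := by gcongr
      _ ≤ ε / 2 := by
          rw [mul_one_div, div_le_iff₀ (by positivity)]
          rw [div_lt_iff₀ hε] at hN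
          nlinarith
  have hpolar : w ^ q = ((‖w‖ ^ q : ℝ) : ℂ) * Complex.exp (δ * I) := by
    have h1 : w = (‖w‖ : ℂ) * Complex.exp (w.arg * I) := (Complex.norm_mul_exp_arg_mul_I w).symm
    have h2 : Complex.exp (w.arg * I) ^ q = Complex.exp (δ * I) := by
      rw [← Complex.exp_nat_mul, Complex.exp_eq_exp_iff_exists_int]
      refine ⟨p, ?_⟩
      rw [hδ]
      push_cast
      ring
    calc w ^ q = ((‖w‖ : ℂ) * Complex.exp (w.arg * I)) ^ q := by rw [← h1]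
      _ = ((‖w‖ ^ q : ℝ) : ℂ) * Complex.exp (δ * I) := by
          rw [mul_pow, h2]
          push_cast
          ring
  have hnorm : ‖w‖ ^ q - 1 ≤ ε / 2 := by
    have h1 : ‖w‖ ^ q ≤ (1 + e) ^ m := by
      calc ‖w‖ ^ q ≤ (1 + e) ^ q := by gcongr
        _ ≤ (1 + e) ^ m := by
            apply pow_le_pow_right₀ _ hqm
            linarith
    have h2 : (m : ℝ) * e ≤ Real.log (1 + ε / 2) := by
      rw [he, mul_div_assoc', div_le_iff₀ (by positivity)]
      nlinarith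
    have h3 : Real.exp (m * e) ≤ 1 + ε / 2 := by
      calc Real.exp (m * e) ≤ Real.exp (Real.log (1 + ε / 2)) := Real.exp_le_exp.2 h2
        _ = 1 + ε / 2 := Real.exp_log (by positivity)
    have h4 := pow_near he0.le m
    linarith
  have hnorm0 : 0 ≤ ‖w‖ ^ q - 1 := by
    have := one_le_pow₀ (n := q) hw1
    linarith
  have hsplit : w ^ q - 1 = ((‖w‖ ^ q - 1 : ℝ) : ℂ) * Complex.exp (δ * I) +
      (Complex.exp (δ * I) - 1) := by
    rw [hpolar]
    push_cast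
    ring
  rw [hsplit]
  calc ‖((‖w‖ ^ q - 1 : ℝ) : ℂ) * Complex.exp (δ * I) + (Complex.exp (δ * I) - 1)‖
      ≤ ‖((‖w‖ ^ q - 1 : ℝ) : ℂ) * Complex.exp (δ * I)‖ + ‖Complex.exp (δ * I) - 1‖ :=
        norm_add_le _ _
    _ ≤ ε / 2 + ε / 2 := by
        have h1 := exp_near δ
        rw [norm_mul, Complex.norm_exp_ofReal_mul_I, mul_one, Complex.norm_real,
          Real.norm_of_nonneg hnorm0]
        linarith
    _ = ε := by ring

end Pool.Agent.CGP
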