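import Pool.Agent.CGP.Targets

/-!
# CGP, target FAC: elementary facts
-/

set_option autoImplicit false

open Complex Filter Topology Set
open Pool.Agent.Limb (F)
open Pool.Agent.PLim (Rho)

namespace Pool.Agent.CGP

namespace FAC_

theorem F_zero (n : ℕ) (c : ℂ) (hn : 2 ≤ n) : F n c 0 = c := by
  unfold F
  rw [zero_pow (by omega), zero_add]

theorem iter_pred {n K : ℕ} {c : ℂ} (hn : 2 ≤ n) (hK : 1 ≤ K) (h : (F n c)^[K] 0 = 0) :
    (F n c)^[K - 1] c = 0 := by
  have h1 : (F n c)^[K - 1 + 1] 0 = 0 := by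
    rw [Nat.sub_add_cancel hK]
    exact h
  rw [Function.iterate_succ_apply, F_zero n c hn] at h1
  exact h1

theorem period {n K : ℕ} {c : ℂ} (hn : 2 ≤ n) (h : (F n c)^[K] 0 = 0) :
    Function.IsPeriodicPt (F n c) K c := by
  have h1 : (F n c)^[K] c = c := by
    have h2 : (F n c)^[K] ((F n c) 0) = (F n c) ((F n c)^[K] 0) := by
      rw [← Function.iterate_succ_apply, Function.iterate_succ_apply']
    rw [h, F_zero n c hn] at h2
    exact h2
  exact h1

theorem iter_z {n K k : ℕ} {c : ℂ} {z : ℕ → ℂ} (D : Dt n K k c z) (i l : ℕ) :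
    (F n c)^[i] (z l) = z (l + i) := by
  induction i with
  | zero => rfl
  | succ i ih => rw [Function.iterate_succ_apply', ih, D.stp, add_assoc]

theorem shift {a : ℕ → ℂ} {k : ℕ} (ha : ∀ l, a (l + k) = a l) (l : ℕ) :
    ∏ i ∈ Finset.range k, a (l + i) = ∏ i ∈ Finset.range k, a i := by
  induction l with
  | zero => simp
  | succ l ih =>
    rw [← ih]
    cases k with
    | zero => simp
    | succ k =>
      have h1 := Finset.prod_range_succ' (fun i => a (l + i)) k
      have h2 := Finset.prod_range_succ (fun i => a (l + 1 + i)) k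
      have h3 : a (l + 1 + k) = a l := by
        rw [← ha l]
        ring_nf
      have h4 : ∀ i, a (l + 1 + i) = a (l + (i + 1)) := by
        intro i
        ring_nf
      rw [h1, h2, h3]
      simp only [h4, add_zero]

theorem power {a : ℕ → ℂ} {k : ℕ} (ha : ∀ l, a (l + k) = a l) (l m : ℕ) :
    ∏ i ∈ Finset.range (k * m), a (l + i) = (∏ i ∈ Finset.range k, a i) ^ m := by
  induction m with
  | zero => simp
  | succ m ih =>
    rw [Nat.mul_succ, Finset.prod_range_add, ih, pow_succ]
    have h := shift ha (l + k * m)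
    rw [← h]
    simp only [add_assoc]

end FAC_

open FAC_ in
theorem p_FAC (h : T_CRN) : T_FAC := by
  intro n K k c z D
  have hp := period D.hn D.cen
  have hpred := iter_pred D.hn D.hK D.cen
  have hK0 : 0 < K := D.hK
  have hk0 : 0 < k := D.hk
  have hperz : Function.Periodic z k := D.per
  have hmodz : ∀ l, z (l % k) = z l := fun l => hperz.map_mod_nat l
  have hd : ∀ (m : ℕ) (l : ℕ), deriv ((F n c)^[m]) (z l) =
      ∏ i ∈ Finset.range m, ((n : ℂ) * (z (l + i)) ^ (n - 1)) := by
    intro m l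
    rw [(h n c m (z l) D.hn).1]
    refine Finset.prod_congr rfl fun i _ => ?_
    rw [iter_z D]
  have hrho : Rho n k c (z 0) = ∏ i ∈ Finset.range k, ((n : ℂ) * (z i) ^ (n - 1)) := by
    unfold Rho
    rw [hd]
    simp
  have hn1 : n - 1 ≠ 0 := by
    have := D.hn
    omega
  have hz0 : ∀ l, z l ≠ 0 := by
    intro l hl
    have h1 : Rho n k c (z 0) = 0 := by
      rw [hrho]
      refine Finset.prod_eq_zero (i := l % k) (Finset.mem_range.2 (Nat.mod_lt _ hk0)) ?_
      rw [hmodz, hl, zero_pow hn1, mul_zero]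
    have h2 := D.rep
    rw [h1, norm_zero] at h2
    linarith
  have hmem : ∀ j : ℕ, (F n c)^[j] c ∈ PP n K c := by
    intro j
    exact ⟨j % K, Nat.mod_lt _ hK0, (hp.iterate_mod_apply j).symm⟩
  have hne : ∀ l j : ℕ, z l ≠ (F n c)^[j] c := by
    intro l j hj
    have h1 : (F n c)^[j] c = (F n c)^[j % K] c := (hp.iterate_mod_apply j).symm
    have h2 : j % K < K := Nat.mod_lt _ hK0
    apply hz0 (l + (K - 1 - j % K))
    rw [← iter_z D, hj, h1, ← Function.iterate_add_apply]
    have h3 : K - 1 - j % K + j % K = K - 1 := by omega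
    rw [h3]
    exact hpred
  have hfin : (PP n K c).Finite := by
    refine ((Finset.range K).image fun j => (F n c)^[j] c).finite_toSet.subset ?_
    rintro x ⟨j, hj, rfl⟩
    rw [Finset.mem_coe, Finset.mem_image]
    exact ⟨j, Finset.mem_range.2 hj, rfl⟩
  have hPne : (PP n K c).Nonempty := ⟨_, hmem 0⟩
  refine ⟨hmem, ?_, ?_, ?_, ?_⟩
  · intro l
    obtain ⟨y, ⟨j, hj, hy⟩, hd1⟩ := hfin.isCompact.exists_infDist_eq_dist hPne (z l)
    have hR : Rp n K c (z l) = ‖z l - (F n c)^[j] c‖ := by
      unfold Rp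
      rw [hd1, hy, dist_eq_norm]
    refine ⟨?_, ⟨j, hj, hR.symm⟩, ?_⟩
    · rw [hR]
      exact norm_pos_iff.2 (sub_ne_zero.2 (hne l j))
    · intro i
      rw [← dist_eq_norm]
      exact Metric.infDist_le_dist_of_mem (hmem i)
  · intro m j hm
    rw [(h n c m _ D.hn).1]
    have h2 : j % K < K := Nat.mod_lt _ hK0
    refine Finset.prod_eq_zero (i := K - 1 - j % K) (Finset.mem_range.2 (by omega)) ?_
    have h1 : (F n c)^[j] c = (F n c)^[j % K] c := (hp.iterate_mod_apply j).symm
    rw [h1, ← Function.iterate_add_apply]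
    have h3 : K - 1 - j % K + j % K = K - 1 := by omega
    rw [h3, hpred, zero_pow hn1, mul_zero]
  · intro m l
    constructor
    · rw [iter_z D]
      have h1 := hmodz (l + k * m)
      rw [Nat.add_mul_mod_self_left] at h1
      rw [← h1]
      exact hmodz l
    · rw [hd, hrho]
      exact power (a := fun i => (n : ℂ) * (z i) ^ (n - 1)) (fun l => by simp only [D.per]) l m
  · intro l
    exact ⟨l % k, Nat.mod_lt _ hk0, (hmodz l).symm⟩

end Pool.Agent.CGP
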