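import Pool.Agent.CGP.Targets

/-!
# CGP: the gap for the multipliers (GAP)
-/

set_option autoImplicit false

open Complex Filter Topology Set
open Pool.Agent.Limb (F)
open Pool.Agent.PLim (Rho)

namespace Pool.Agent.CGP

theorem p_GAP (h₁ : T_FAC) (h₂ : T_NFX) (h₃ : T_TPC) (h₄ : T_CTR) (h₅ : T_DIR) : T_GAP := by
  intro R
  obtain ⟨η, hη, hη', hN⟩ := h₂
  obtain ⟨K0, hK0, hC⟩ := h₄ η R hη (by linarith)
  obtain ⟨ε, hε, hT⟩ := h₃ K0 hK0
  obtain ⟨e, he, hD⟩ := h₅ R (min ε 1) (lt_min hε one_pos)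
  refine ⟨e, he, ?_⟩
  intro n K k c z D hKk
  by_contra hlt
  push Not at hlt
  obtain ⟨q, hq1, hqR, hq⟩ := hD (Rho n k c (z 0)) D.rep.le hlt
  obtain ⟨-, hb, -, hd, -⟩ := h₁ n K k c z D
  have hKq : K ≤ k * q := by
    calc K ≤ R * k := hKk
      _ ≤ q * k := Nat.mul_le_mul_right k hqR
      _ = k * q := Nat.mul_comm _ _
  have hq2 : ‖Rho n k c (z 0) ^ q‖ ≤ 2 := by
    have h1 : Rho n k c (z 0) ^ q = (Rho n k c (z 0) ^ q - 1) + 1 := by ring
    rw [h1]
    refine (norm_add_le _ _).trans ?_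
    have h2 : ‖Rho n k c (z 0) ^ q - 1‖ ≤ 1 := hq.trans (min_le_right _ _)
    rw [norm_one]
    linarith
  have htp := fun l : ℕ => hT n K k c z D l q hq1 hKq (hq.trans (min_le_left _ _))
  refine hC K k (fun l => z l) (fun j => (F n c)^[j] c) (fun l => Rp n K c (z l)) D.hk hKk
    (fun l => (hb l).1) ?_ ?_
  · intro l m hlm
    by_contra hc
    push Not at hc
    have h1 : z m = z l := by
      refine hN n K k c z D l q (z m) hq1 hq2 ?_ (hd q m).1
      rw [norm_sub_rev]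
      exact hc.le
    exact hlm (Fin.ext (D.dst l m l.2 m.2 h1.symm))
  · intro l
    obtain ⟨f, hf1, hf2⟩ := htp l
    exact ⟨fun i => ⟨f i, (hf1 i).1⟩, fun i => (hf1 i).2, fun i i' h => hf2 i i' h⟩

end Pool.Agent.CGP
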