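import Pool.Agent.CGP.Targets

/-!
# CGP, target LFN: lifts through the iterates over convex sets (copy of CUSP/P_LFT.lean for all `n`)

Owner helper40, block by helper21.
-/

set_option autoImplicit false

open Complex Filter Topology Set
open Pool.Agent.Limb (F)
open Pool.Agent.PLim (Rho)

namespace Pool.Agent.CGP

namespace LFN_

/-- a continuous `n`-th root of a holomorphic function without zeros is holomorphic -/
theorem diff_root {W : Set ℂ} (hW : IsOpen W) {n : ℕ} (hn : n ≠ 0) {f s : ℂ → ℂ}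
    (hf : DifferentiableOn ℂ f W) (hs : ContinuousOn s W) (h0 : ∀ t ∈ W, f t ≠ 0)
    (hsf : ∀ t ∈ W, s t ^ n = f t) : DifferentiableOn ℂ s W := by
  intro t ht
  have hst : s t ≠ 0 := by
    intro h
    exact h0 t ht (by rw [← hsf t ht, h, zero_pow hn])
  have hWt : W ∈ 𝓝 t := hW.mem_nhds ht
  have hc : ContinuousAt s t := hs.continuousAt hWt
  have hd : HasDerivAt f (deriv f t) t := (hf.differentiableAt hWt).hasDerivAt
  have hSt : ∑ i ∈ Finset.range n, s t ^ i * s t ^ (n - 1 - i) = n * s t ^ (n - 1) := by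
    rw [Finset.sum_congr rfl (g := fun _ => s t ^ (n - 1)), Finset.sum_const, Finset.card_range,
      nsmul_eq_mul]
    intro i hi
    have hi' := Finset.mem_range.1 hi
    rw [← pow_add]
    congr 1
    omega
  have h3 : ∑ i ∈ Finset.range n, s t ^ i * s t ^ (n - 1 - i) ≠ 0 := by
    rw [hSt]
    exact mul_ne_zero (by exact_mod_cast hn) (pow_ne_zero _ hst)
  have h1 : HasDerivAt s
      (deriv f t / ∑ i ∈ Finset.range n, s t ^ i * s t ^ (n - 1 - i)) t := by
    rw [hasDerivAt_iff_tendsto_slope] at hd ⊢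
    have h2 : Tendsto (fun x => ∑ i ∈ Finset.range n, s x ^ i * s t ^ (n - 1 - i)) (𝓝[≠] t)
        (𝓝 (∑ i ∈ Finset.range n, s t ^ i * s t ^ (n - 1 - i))) :=
      (tendsto_finsetSum _ fun i _ => (hc.tendsto.pow i).mul_const _).mono_left
        nhdsWithin_le_nhds
    refine (hd.div h2 h3).congr' ?_
    have h4 : ∀ᶠ x in 𝓝[≠] t, ∑ i ∈ Finset.range n, s x ^ i * s t ^ (n - 1 - i) ≠ 0 :=
      h2.eventually_ne h3
    have h5 : ∀ᶠ x in 𝓝[≠] t, x ∈ W := nhdsWithin_le_nhds hWt
    have h6 : ∀ᶠ x in 𝓝[≠] t, x ≠ t := self_mem_nhdsWithin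
    filter_upwards [h4, h5, h6] with x a1 a2 a3
    have a4 : x - t ≠ 0 := sub_ne_zero.2 a3
    change slope f t x / (∑ i ∈ Finset.range n, s x ^ i * s t ^ (n - 1 - i)) = slope s t x
    rw [slope_def_field, slope_def_field, ← hsf x a2, ← hsf t ht, ← geom_sum₂_mul]
    field_simp
  exact h1.differentiableAt.differentiableWithinAt

/-- `n`-th roots on convex open sets -/
theorem ex_root {W : Set ℂ} (hW : IsOpen W) (hc : Convex ℝ W) {n : ℕ} (hn : n ≠ 0) {f : ℂ → ℂ}
    (hf : DifferentiableOn ℂ f W) (h0 : ∀ t ∈ W, f t ≠ 0) {t0 : ℂ} (ht0 : t0 ∈ W) :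
    ∃ s : ℂ → ℂ, DifferentiableOn ℂ s W ∧ ∀ t ∈ W, s t ^ n = f t := by
  have hne : W.Nonempty := ⟨t0, ht0⟩
  have hsc : IsSimplyConnected W := by
    have : ContractibleSpace W := hc.contractibleSpace hne
    exact (inferInstance : SimplyConnectedSpace W)
  obtain ⟨s, hs, hs2⟩ := Complex.exists_continuousOn_pow_eq hsc hW hf.continuousOn
    (by rintro ⟨t, ht, h⟩; exact h0 t ht h) (n := n) hn
  exact ⟨s, diff_root hW hn hf hs h0 (fun t _ => hs2 t), fun t _ => hs2 t⟩

end LFN_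

open LFN_ in
theorem p_LFN : T_LFN := by
  intro n c m
  induction m with
  | zero =>
    intro W h hn hW hc hh _ t0 ht0 z0 hz0
    exact ⟨h, hh, hz0.symm, fun t _ => rfl⟩
  | succ m ih =>
    intro W h hn hW hc hh hav t0 ht0 z0 hz0
    have hn0 : n ≠ 0 := by omega
    have hne0 : ∀ t ∈ W, h t - c ≠ 0 := fun t ht h0 => hav t ht 0 (by omega) (by
        rw [Function.iterate_zero, id]
        exact sub_eq_zero.1 h0)
    obtain ⟨s, hs, hs2⟩ := ex_root hW hc hn0 (f := fun t => h t - c) (hh.sub_const c) hne0 ht0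
    rw [Function.iterate_succ_apply'] at hz0
    have hy : ((F n c)^[m] z0) ^ n = s t0 ^ n := by
      rw [hs2 t0 ht0, ← hz0]
      simp [F]
    have hs0 : s t0 ≠ 0 := by
      intro h0
      exact hne0 t0 ht0 (by rw [← hs2 t0 ht0, h0, zero_pow hn0])
    -- adjust the root of unity
    obtain ⟨s', hs', hs2', hst⟩ : ∃ s' : ℂ → ℂ, DifferentiableOn ℂ s' W ∧
        (∀ t ∈ W, s' t ^ n = h t - c) ∧ (F n c)^[m] z0 = s' t0 := by
      refine ⟨fun t => ((F n c)^[m] z0 / s t0) * s t, hs.const_mul _, fun t ht => ?_, ?_⟩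
      · rw [mul_pow, div_pow, hy, div_self (pow_ne_zero _ hs0), one_mul]
        exact hs2 t ht
      · field_simp
    have hF : ∀ t ∈ W, F n c (s' t) = h t := by
      intro t ht
      unfold F
      rw [hs2' t ht]
      ring
    obtain ⟨g, hg, hg0, hgm⟩ := ih W s' hn hW hc hs' (fun t ht j hj hcon => by
      refine hav t ht (j + 1) (by omega) ?_
      rw [Function.iterate_succ_apply', ← hcon, hF t ht]) t0 ht0 z0 hst
    refine ⟨g, hg, hg0, fun t ht => ?_⟩
    rw [Function.iterate_succ_apply', hgm t ht, hF t ht]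

end Pool.Agent.CGP
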