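import Pool.Agent.CGP.Targets

/-!
# CGP, target LUN: uniqueness of lifts
-/

set_option autoImplicit false

open Complex Filter Topology Set
open Pool.Agent.Limb (F)
open Pool.Agent.PLim (Rho)

namespace Pool.Agent.CGP

theorem LUN_.diff (n : ℕ) (c : ℂ) (m : ℕ) : Differentiable ℂ ((F n c)^[m]) := by
  have h : Differentiable ℂ (F n c) := by
    unfold F
    fun_prop
  exact h.iterate m

/-- a function with nonzero strict derivative is injective near the point -/
theorem LUN_.loc {f : ℂ → ℂ} {x0 : ℂ} (hf : Differentiable ℂ f) (h0 : deriv f x0 ≠ 0) :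
    ∀ᶠ p : ℂ × ℂ in 𝓝 (x0, x0), f p.1 = f p.2 → p.1 = p.2 := by
  have h1 : HasStrictDerivAt f (deriv f x0) x0 := (hf.analyticAt x0).hasStrictDerivAt
  have h2 := h1.hasStrictFDerivAt.isLittleO.def (c := ‖deriv f x0‖ / 2)
    (by have := norm_pos_iff.mpr h0; positivity)
  filter_upwards [h2] with p hp he
  by_contra hne
  have h3 : 0 < ‖p.1 - p.2‖ := norm_pos_iff.mpr (sub_ne_zero.mpr hne)
  have h4 : 0 < ‖deriv f x0‖ := norm_pos_iff.mpr h0
  rw [he, sub_self, zero_sub, norm_neg] at hp
  simp only [ContinuousLinearMap.toSpanSingleton_apply, smul_eq_mul, norm_mul] at hp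
  nlinarith

theorem p_LUN : T_LUN := by
  intro n c m W g g' t0 hW hg hg' hf ht0 he
  have : PreconnectedSpace W := isPreconnected_iff_preconnectedSpace.mp hW
  have hgc : Continuous (fun t : W => g t) := continuousOn_iff_continuous_domRestrict.mp hg
  have hgc' : Continuous (fun t : W => g' t) := continuousOn_iff_continuous_domRestrict.mp hg'
  have hcl : IsClosed {t : W | g t = g' t} := isClosed_eq hgc hgc'
  have hop : IsOpen {t : W | g t = g' t} := by
    rw [isOpen_iff_mem_nhds]
    intro t ht
    have ht' : g t = g' t := ht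
    have h1 := LUN_.loc (LUN_.diff n c m) (hf t t.2).2
    have h2 : Tendsto (fun s : W => (g s, g' s)) (𝓝 t) (𝓝 (g t, g t)) := by
      have h3 : Tendsto (fun s : W => (g s, g' s)) (𝓝 t) (𝓝 (g t, g' t)) :=
        (hgc.prodMk hgc').tendsto t
      rwa [← ht'] at h3
    filter_upwards [h2.eventually h1] with s hs
    exact hs (hf s s.2).1
  have huniv : {t : W | g t = g' t} = Set.univ := by
    rcases isClopen_iff.mp ⟨hcl, hop⟩ with h | h
    · exact absurd (show (⟨t0, ht0⟩ : W) ∈ {t : W | g t = g' t} from he) (by simp [h])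
    · exact h
  intro t ht
  have h3 : (⟨t, ht⟩ : W) ∈ {t : W | g t = g' t} := by rw [huniv]; exact Set.mem_univ _
  exact h3

end Pool.Agent.CGP
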