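import Pool.Agent.CGP.Targets

/-!
# CGP, target NFX: no other periodic points near the cycle
-/

set_option autoImplicit false

open Complex Filter Topology Set
open Pool.Agent.Limb (F)
open Pool.Agent.PLim (Rho)

namespace Pool.Agent.CGP

namespace NFX_

theorem F_diff (n : ℕ) (c : ℂ) (m : ℕ) : Differentiable ℂ ((F n c)^[m]) := by
  have h : Differentiable ℂ (F n c) := by
    have e : F n c = fun z => z ^ n + c := by
      funext z
      rfl
    rw [e]
    fun_prop
  exact h.iterate m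

/-- the derivative of a branch at its fixed point -/
theorem der (f G : ℂ → ℂ) (ζ : ℂ) (R : ℝ) (hR : 0 < R) (hf : Differentiable ℂ f)
    (hG : DifferentiableOn ℂ G (Metric.ball ζ R)) (hz : G ζ = ζ)
    (hi : ∀ x ∈ Metric.ball ζ R, f (G x) = x) : deriv f ζ * deriv G ζ = 1 := by
  have hζ : ζ ∈ Metric.ball ζ R := Metric.mem_ball_self hR
  have hGx : HasDerivAt G (deriv G ζ) ζ :=
    (hG.differentiableAt (Metric.isOpen_ball.mem_nhds hζ)).hasDerivAt
  have hfx : HasDerivAt f (deriv f (G ζ)) (G ζ) := (hf (G ζ)).hasDerivAt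
  have hcomp := hfx.comp ζ hGx
  have hid : HasDerivAt (f ∘ G) 1 ζ := by
    refine (hasDerivAt_id ζ).congr_of_eventuallyEq ?_
    filter_upwards [Metric.isOpen_ball.mem_nhds hζ] with y hy
    exact hi y hy
  have h := hcomp.unique hid
  rw [hz] at h
  exact h

end NFX_

open NFX_ in
/-- **NFX** -/
theorem p_NFX (h1 : T_BRN) (h2 : Pool.Agent.CUSP.T_KDI) (h3 : T_LUN) (h4 : T_CRN)
    (h5 : T_FAC) : T_NFX := by
  obtain ⟨C, hC, hK⟩ := h2
  have hC0 : 0 < C := by linarith
  refine ⟨1 / (16 * C), by positivity, ?_, ?_⟩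
  · exact one_div_le_one_div_of_le (by norm_num) (by linarith)
  intro n K k c z hD l q x hq hlam hx hfix
  obtain ⟨-, fb, -, fd, -⟩ := h5 n K k c z hD
  obtain ⟨hR, -, hdist⟩ := fb l
  have hrep : 1 < ‖Rho n k c (z 0)‖ := hD.rep
  choose G hG using fun j => h1 n K k c z hD l (q * j)
  obtain ⟨R, hRdef⟩ : ∃ R, R = Rp n K c (z l) := ⟨_, rfl⟩
  obtain ⟨ζ, hζdef⟩ : ∃ ζ, ζ = z l := ⟨_, rfl⟩
  obtain ⟨lam, hlamdef⟩ : ∃ lam, lam = Rho n k c (z 0) := ⟨_, rfl⟩
  rw [← hlamdef] at hrep hlam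
  rw [← hRdef] at hR hx
  rw [← hζdef] at hx ⊢
  have hζ : ζ ∈ Metric.ball ζ R := Metric.mem_ball_self hR
  have gd : ∀ j, DifferentiableOn ℂ (G j) (Metric.ball ζ R) := fun j => by
    rw [hζdef, hRdef]
    exact (hG j).dif
  have gi : ∀ j, InjOn (G j) (Metric.ball ζ R) := fun j => by
    rw [hζdef, hRdef]
    exact (hG j).inj
  have gf : ∀ j, G j ζ = ζ := fun j => by
    rw [hζdef]
    exact (hG j).fix
  have gv : ∀ j, ∀ y ∈ Metric.ball ζ R, (F n c)^[k * (q * j)] (G j y) = y := fun j => by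
    rw [hζdef, hRdef]
    exact (hG j).inv
  have hlam0 : 0 < ‖lam‖ := by linarith
  have gder : ∀ j, ‖deriv (G j) ζ‖ = (‖lam‖ ^ (q * j))⁻¹ := by
    intro j
    have e1 := der ((F n c)^[k * (q * j)]) (G j) ζ R hR (F_diff n c _) (gd j) (gf j) (gv j)
    have e2 : deriv ((F n c)^[k * (q * j)]) ζ = lam ^ (q * j) := by
      rw [hζdef, hlamdef]
      exact (fd (q * j) l).2
    rw [e2] at e1
    have e3 : ‖lam‖ ^ (q * j) * ‖deriv (G j) ζ‖ = 1 := by
      rw [← norm_pow, ← norm_mul, e1, norm_one]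
    exact (inv_eq_of_mul_eq_one_right e3).symm
  have gle : ∀ j, ‖deriv (G j) ζ‖ ≤ 1 := by
    intro j
    rw [gder]
    exact inv_le_one_of_one_le₀ (one_le_pow₀ hrep.le)
  have hdis : ∀ i : ℕ, R ≤ ‖ζ - (F n c)^[i] c‖ := by
    intro i
    rw [hRdef, hζdef]
    exact hdist i
  -- Koebe
  have hKj : ∀ j, ∀ y : ℂ, ‖y - ζ‖ ≤ R / 2 → ‖G j y - ζ‖ ≤ C * ‖deriv (G j) ζ‖ * ‖y - ζ‖ := by
    intro j y hy
    obtain ⟨-, -, k3⟩ := hK ζ R (G j) hR (gd j) (gi j)
    have h := (k3 y hy).2.2.1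
    rw [gf] at h
    exact h
  have hR16 : 1 / (16 * C) * R = R / (16 * C) := by ring
  rw [hR16] at hx
  have hxR : R / (16 * C) ≤ R / 16 :=
    div_le_div_of_nonneg_left hR.le (by norm_num) (by linarith)
  -- the first branch
  have hG1 : G 1 x = x := by
    obtain ⟨-, k2, -⟩ := hK ζ R (G 1) hR (gd 1) (gi 1)
    have hx2 : x ∈ Metric.ball (G 1 ζ) (R * ‖deriv (G 1) ζ‖ / C) := by
      rw [gf, Metric.mem_ball, dist_eq_norm]
      refine lt_of_le_of_lt hx ?_
      have e1 : (1 : ℝ) / 2 ≤ ‖deriv (G 1) ζ‖ := by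
        rw [gder, mul_one, ← norm_pow, one_div]
        exact inv_anti₀ (by rw [norm_pow]; positivity) hlam
      have e2 : R / (16 * C) < R * (1 / 2) / C := by
        rw [div_lt_div_iff₀ (by positivity) hC0]
        nlinarith [mul_pos hR hC0]
      refine e2.trans_le ?_
      apply div_le_div_of_nonneg_right _ hC0.le
      exact mul_le_mul_of_nonneg_left e1 hR.le
    obtain ⟨x', hx', hxx⟩ := k2 hx2
    have e3 := gv 1 x' hx'
    rw [hxx, mul_one, hfix] at e3
    rw [← e3] at hxx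
    exact hxx
  -- the segment
  have hseg : ∀ y ∈ segment ℝ ζ x, ‖y - ζ‖ ≤ ‖x - ζ‖ := by
    intro y hy
    obtain ⟨t, ht, rfl⟩ := (segment_eq_image' ℝ ζ x ▸ hy :)
    have e1 : ζ + t • (x - ζ) - ζ = t • (x - ζ) := by ring
    rw [e1, norm_smul, Real.norm_eq_abs, abs_of_nonneg ht.1]
    exact mul_le_of_le_one_left (norm_nonneg _) ht.2
  have hsegb : ∀ y ∈ segment ℝ ζ x, y ∈ Metric.ball ζ R := by
    intro y hy
    rw [Metric.mem_ball, dist_eq_norm]
    have := hseg y hy
    linarith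
  have hall : ∀ j : ℕ, G (j + 1) x = x := by
    intro j
    induction j with
    | zero => exact hG1
    | succ j ih =>
      have hmaps : ∀ y ∈ segment ℝ ζ x, G (j + 1) y ∈ Metric.ball ζ R := by
        intro y hy
        rw [Metric.mem_ball, dist_eq_norm]
        have e0 := hseg y hy
        have e1 := hKj (j + 1) y (by linarith)
        have e2 : C * ‖deriv (G (j + 1)) ζ‖ * ‖y - ζ‖ ≤ C * 1 * (R / (16 * C)) := by
          have e3 := gle (j + 1)
          gcongr
          exact e0.trans hx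
        have e4 : C * 1 * (R / (16 * C)) = R / 16 := by
          field_simp
        linarith
      have hEq : EqOn (G (j + 1 + 1)) (fun y => G 1 (G (j + 1) y)) (segment ℝ ζ x) := by
        refine h3 n c (k * (q * (j + 1 + 1))) (segment ℝ ζ x) _ _ ζ
          (convex_segment ζ x).isPreconnected ?_ ?_ ?_ (left_mem_segment ℝ ζ x) ?_
        · exact (gd _).continuousOn.mono hsegb
        · exact (gd 1).continuousOn.comp ((gd (j + 1)).continuousOn.mono hsegb) hmaps
        · intro y hy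
          have e1 := gv (j + 1 + 1) y (hsegb y hy)
          have e2 : (F n c)^[k * (q * (j + 1 + 1))] (G 1 (G (j + 1) y)) = y := by
            have e3 : k * (q * (j + 1 + 1)) = k * (q * (j + 1)) + k * (q * 1) := by ring
            rw [e3, Function.iterate_add_apply, gv 1 _ (hmaps y hy)]
            exact gv (j + 1) y (hsegb y hy)
          refine ⟨e1.trans e2.symm, (h4 n c _ _ hD.hn).2 ?_⟩
          intro i _ hi
          rw [e1] at hi
          have e5 := hdis i
          have e6 := hsegb y hy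
          rw [Metric.mem_ball, dist_eq_norm, hi, norm_sub_rev] at e6
          linarith
        · rw [gf, gf, gf]
      have e7 := hEq (right_mem_segment ℝ ζ x)
      change G (j + 1 + 1) x = G 1 (G (j + 1) x) at e7
      rw [e7, ih, hG1]
  -- conclusion
  obtain ⟨j, hj⟩ := pow_unbounded_of_one_lt C hrep
  by_contra hne
  have hpos : 0 < ‖x - ζ‖ := norm_pos_iff.mpr (sub_ne_zero.mpr hne)
  have e1 := hKj (j + 1) x (by linarith)
  rw [hall j, gder] at e1
  have e2 : C < ‖lam‖ ^ (q * (j + 1)) := by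
    refine hj.trans_le (pow_le_pow_right₀ hrep.le ?_)
    calc j ≤ 1 * (j + 1) := by omega
      _ ≤ q * (j + 1) := Nat.mul_le_mul_right _ hq
  have e3 : C * (‖lam‖ ^ (q * (j + 1)))⁻¹ < 1 := by
    rw [← div_eq_mul_inv, div_lt_one (by positivity)]
    exact e2
  have e4 : C * (‖lam‖ ^ (q * (j + 1)))⁻¹ * ‖x - ζ‖ < 1 * ‖x - ζ‖ :=
    mul_lt_mul_of_pos_right e3 hpos
  linarith

end Pool.Agent.CGP
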