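import Pool.Agent.CGP.Targets
import Pool.Agent.CUSP.P_NID

/-!
# CGP, block NIG: the branch is close to the identity

(MP_fcb70f_an.) Adapted from `Pool/Agent/CUSP/P_NID.lean`.
-/

set_option autoImplicit false

open Complex Filter Topology Set
open Pool.Agent.Limb (F)
open Pool.Agent.PLim (Rho)
open Pool.Agent.CUSP (T_KDI T_HRK)

namespace Pool.Agent.CGP

namespace NIG_

/-- The distance to the identity is bounded. -/
theorem bnd2 {C0 : ℝ} (hC0 : 1 ≤ C0) (kd : Pool.Agent.CUSP.NID_.Kd C0) (g : ℂ → ℂ) (μ : ℂ)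
    (hg : DifferentiableOn ℂ g (Metric.ball 0 1)) (hi : InjOn g (Metric.ball 0 1))
    (g0 : g 0 = 0) (g1 : deriv g 0 = μ) (hμ0 : μ ≠ 0) (hμ1 : ‖μ‖ ≤ 1) (hμ2 : ‖μ - 1‖ ≤ 1)
    (x : ℂ) (hx : ‖x‖ ≤ 15 / 16) : ‖g x - x‖ ≤ 30 * C0 ^ 30 + 2 := by
  have h1 : DifferentiableOn ℂ (fun w => g w / μ) (Metric.ball 0 1) := hg.div_const _
  have h2 : InjOn (fun w => g w / μ) (Metric.ball 0 1) := by
    intro a ha b hb h
    have h3 : g a / μ = g b / μ := h
    rw [div_left_inj' hμ0] at h3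
    exact hi ha hb h3
  have h3 : deriv (fun w => g w / μ) 0 = 1 := by
    rw [deriv_div_const, g1, div_self hμ0]
  have h4 := Pool.Agent.CUSP.NID_.bnd hC0 kd (fun w => g w / μ) h1 h2 (by simp [g0]) h3 x hx
  have h5 : g x - x = μ * (g x / μ - x) + (μ - 1) * x := by
    field_simp
    ring
  rw [h5]
  have h6 : ‖μ * (g x / μ - x)‖ ≤ 1 * (30 * C0 ^ 30 + 1) := by
    rw [norm_mul]
    exact mul_le_mul hμ1 h4 (norm_nonneg _) zero_le_one
  have h7 : ‖(μ - 1) * x‖ ≤ 1 * 1 := by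
    rw [norm_mul]
    exact mul_le_mul hμ2 (by linarith) (norm_nonneg _) zero_le_one
  have h8 := norm_add_le (μ * (g x / μ - x)) ((μ - 1) * x)
  linarith

/-- The part near the centre. -/
theorem near (hrk : T_HRK) {C0 η s : ℝ} (hC0 : 1 ≤ C0) (kd : Pool.Agent.CUSP.NID_.Kd C0)
    (hη : 0 < η) (hη1 : η ≤ 1 / 16) (hs : 0 < s) (g : ℂ → ℂ) (μ : ℂ)
    (hg : DifferentiableOn ℂ g (Metric.ball 0 1)) (hi : InjOn g (Metric.ball 0 1))
    (g0 : g 0 = 0) (g1 : deriv g 0 = μ) (hμ1 : ‖μ‖ ≤ 1) (hμ3 : μ ≠ 1)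
    (hf : ∀ x : ℂ, ‖x‖ ≤ η → g x = x → x = 0) (hμs : (C0 + 1) ^ 2 * ‖μ - 1‖ ≤ s ^ 3) :
    ∀ z ∈ Metric.ball (0 : ℂ) (η / 6), ‖g z - z‖ ≤ s := by
  have hO : IsOpen (Metric.ball (0 : ℂ) 1) := Metric.isOpen_ball
  have hn0 : Metric.ball (0 : ℂ) 1 ∈ 𝓝 (0 : ℂ) := Metric.ball_mem_nhds _ one_pos
  have m0 : (0 : ℂ) ∈ Metric.ball (0 : ℂ) 1 := Metric.mem_ball_self one_pos
  set h : ℂ → ℂ := fun x => g x - x with hh
  have hd : DifferentiableOn ℂ h (Metric.ball 0 1) := hg.sub differentiableOn_id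
  have h0 : h 0 = 0 := by simp [hh, g0]
  have hd0 : deriv h 0 = μ - 1 := by
    have h3 : HasDerivAt (fun x => g x - x) (deriv g 0 - 1) 0 :=
      (hg.differentiableAt (hO.mem_nhds m0)).hasDerivAt.sub (hasDerivAt_id' 0)
    rw [g1] at h3
    exact h3.deriv
  set y : ℂ → ℂ := dslope h 0 with hy
  have hdy : DifferentiableOn ℂ y (Metric.ball 0 1) :=
    (Complex.differentiableOn_dslope hn0).mpr hd
  have y0 : y 0 = μ - 1 := by rw [hy, dslope_same, hd0]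
  have hxy : ∀ x, h x = x * y x := by
    intro x
    have e1 := sub_smul_dslope h 0 x
    rw [← hy, h0, smul_eq_mul, sub_zero, sub_zero] at e1
    exact e1.symm
  obtain ⟨-, -, kd1⟩ := kd 0 1 g one_pos hg hi
  have hyy : ∀ x ∈ Metric.ball (0 : ℂ) η, y x ≠ 0 ∧ ‖y x‖ ≤ C0 + 1 := by
    intro x hx
    rw [mem_ball_zero_iff] at hx
    by_cases hx0 : x = 0
    · subst hx0
      rw [y0]
      refine ⟨sub_ne_zero.mpr hμ3, ?_⟩
      have h3 := norm_sub_le μ 1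
      rw [norm_one] at h3
      linarith
    · constructor
      · intro hc
        have h3 : h x = 0 := by rw [hxy, hc, mul_zero]
        have h4 : g x = x := sub_eq_zero.mp h3
        exact hx0 (hf x hx.le h4)
      · obtain ⟨-, -, h5, -⟩ := kd1 x (by rw [sub_zero]; linarith)
        rw [g0, sub_zero, sub_zero, g1] at h5
        have h6 : ‖g x‖ ≤ C0 * ‖x‖ := by
          calc ‖g x‖ ≤ C0 * ‖μ‖ * ‖x‖ := h5
            _ ≤ C0 * 1 * ‖x‖ := by gcongr
            _ = C0 * ‖x‖ := by ring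
        have h7 : ‖h x‖ ≤ (C0 + 1) * ‖x‖ := by
          have h8 : ‖g x - x‖ ≤ ‖g x‖ + ‖x‖ := norm_sub_le _ _
          have h9 : ‖h x‖ = ‖g x - x‖ := rfl
          rw [h9]
          linarith
        rw [hxy, norm_mul, mul_comm] at h7
        exact le_of_mul_le_mul_right h7 (norm_pos_iff.mpr hx0)
  have hdη : DifferentiableOn ℂ y (Metric.ball 0 η) :=
    hdy.mono (Metric.ball_subset_ball (by linarith))
  intro z hz
  rw [mem_ball_zero_iff] at hz
  have hz2 : ‖z - 0‖ ≤ η / 2 := by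
    rw [sub_zero]
    linarith
  have h3 := (hrk 0 η (C0 + 1) y hη (by linarith) hdη hyy z hz2).1
  rw [y0] at h3
  have h4 : ‖y z‖ ≤ s :=
    (pow_le_pow_iff_left₀ (norm_nonneg _) hs.le (by norm_num)).mp (h3.trans hμs)
  have h5 : ‖g z - z‖ = ‖z‖ * ‖y z‖ := by
    rw [← norm_mul, ← hxy]
  rw [h5]
  calc ‖z‖ * ‖y z‖ ≤ 1 * s := mul_le_mul (by linarith) h4 (norm_nonneg _) zero_le_one
    _ = s := one_mul s

/-- The normalized statement. -/
theorem norml (kdi : T_KDI) (hrk : T_HRK) (tcr : Pool.Agent.AEN.T_TCR) {η e : ℝ}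
    (hη : 0 < η) (hη1 : η ≤ 1 / 16) (he : 0 < e) : ∃ ε : ℝ, 0 < ε ∧ ε ≤ 1 / 2 ∧
    ∀ (g : ℂ → ℂ) (μ : ℂ), DifferentiableOn ℂ g (Metric.ball 0 1) →
      InjOn g (Metric.ball 0 1) → g 0 = 0 → deriv g 0 = μ →
      (∀ x : ℂ, ‖x‖ ≤ η → g x = x → x = 0) → μ ≠ 0 → μ ≠ 1 → ‖μ‖ ≤ 1 → ‖μ - 1‖ ≤ ε →
      ∀ x : ℂ, ‖x‖ ≤ 7 / 8 → ‖g x - x‖ ≤ e := by
  obtain ⟨C0, hC0, kd⟩ := kdi
  set M : ℕ := ⌈6 / η⌉₊ with hMd
  have hM : 6 / η ≤ M := Nat.le_ceil _
  have hM0 : (0 : ℝ) < M := lt_of_lt_of_le (by positivity) hM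
  obtain ⟨s, hs, H⟩ := Pool.Agent.CUSP.NID_.chain tcr (K := 30 * C0 ^ 30 + 2) (by positivity)
    hη hη1 M hM M e he
  refine ⟨min (1 / 2) (s ^ 3 / (C0 + 1) ^ 2), by positivity, min_le_left _ _, ?_⟩
  intro g μ hg hi g0 g1 hf hμ0 hμ3 hμ1 hμε x hx
  have hC2 : 0 < (C0 + 1) ^ 2 := by positivity
  have hμh : ‖μ - 1‖ ≤ 1 / 2 := hμε.trans (min_le_left _ _)
  have hμs : (C0 + 1) ^ 2 * ‖μ - 1‖ ≤ s ^ 3 := by
    have h1 := hμε.trans (min_le_right _ _)
    rw [le_div_iff₀ hC2] at h1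
    linarith
  have hn := near hrk hC0 kd hη hη1 hs g μ hg hi g0 g1 hμ1 hμ3 hf hμs
  have h3 := H g x hg (fun z hz => bnd2 hC0 kd g μ hg hi g0 g1 hμ0 hμ1 (by linarith) z hz)
    hx hn le_rfl x ?_
  · exact h3
  · rw [div_self hM0.ne', Complex.ofReal_one, one_mul]
    exact Metric.mem_ball_self (by positivity)

end NIG_

theorem p_NIG (h₁ : T_KDI) (h₂ : T_HRK) (h₃ : Pool.Agent.AEN.T_TCR) (h₄ : T_NFX)
    (h₅ : T_FAC) : T_NIG := by
  intro e he
  obtain ⟨η, hη, hη1, hnf⟩ := h₄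
  obtain ⟨ε, hε, hε2, H⟩ := NIG_.norml h₁ h₂ h₃ hη hη1 he
  refine ⟨ε, hε, ?_⟩
  intro n K k c z D l q G hq hlam hG x hx
  obtain ⟨-, hb5, -, hd5, -⟩ := h₅ n K k c z D
  obtain ⟨hR, -, -⟩ := hb5 l
  obtain ⟨-, hder⟩ := hd5 q l
  set ζ : ℂ := z l with hζ
  set R : ℝ := Rp n K c ζ with hRd
  set lam : ℂ := Rho n k c (z 0) ^ q with hlamd
  have hl1 : 1 < ‖lam‖ := by
    rw [hlamd, norm_pow]
    exact one_lt_pow₀ D.rep (by omega)
  have hl0 : lam ≠ 0 := by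
    intro h
    rw [h, norm_zero] at hl1
    linarith
  have hl2 : ‖lam‖ ≤ 2 := by
    have h1 : ‖lam‖ ≤ ‖lam - 1‖ + ‖(1 : ℂ)‖ := by
      have := norm_add_le (lam - 1) 1
      rwa [sub_add_cancel] at this
    rw [norm_one] at h1
    linarith
  have hRc : (R : ℂ) ≠ 0 := Complex.ofReal_ne_zero.mpr hR.ne'
  have nR : ‖(R : ℂ)‖ = R := by rw [Complex.norm_real, Real.norm_of_nonneg hR.le]
  -- the derivative of the branch at the centre
  have hGd : DifferentiableAt ℂ G ζ :=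
    hG.dif.differentiableAt (Metric.ball_mem_nhds _ hR)
  have hmul : lam * deriv G ζ = 1 := by
    have e1 : HasDerivAt ((F n c)^[k * q]) lam (G ζ) := by
      rw [hG.fix, ← hder]
      exact (differentiableAt_of_deriv_ne_zero (by rw [hder]; exact hl0)).hasDerivAt
    have e2 : HasDerivAt (fun w => (F n c)^[k * q] (G w)) (lam * deriv G ζ) ζ :=
      e1.comp ζ hGd.hasDerivAt
    have e3 : (fun w => (F n c)^[k * q] (G w)) =ᶠ[𝓝 ζ] fun w => w := by
      filter_upwards [Metric.ball_mem_nhds ζ hR] with w hw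
      exact hG.inv w hw
    have e4 : HasDerivAt (fun w : ℂ => w) (lam * deriv G ζ) ζ := e2.congr_of_eventuallyEq e3.symm
    exact e4.unique (hasDerivAt_id' ζ)
  have hμ0 : deriv G ζ ≠ 0 := by
    intro h
    rw [h, mul_zero] at hmul
    exact zero_ne_one hmul
  have hμn : ‖lam‖ * ‖deriv G ζ‖ = 1 := by rw [← norm_mul, hmul, norm_one]
  have hμ1 : ‖deriv G ζ‖ < 1 := by
    by_contra hcon
    push Not at hcon
    nlinarith
  have hμ3 : deriv G ζ ≠ 1 := by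
    intro h
    rw [h, norm_one] at hμ1
    exact lt_irrefl _ hμ1
  have hμε : ‖deriv G ζ - 1‖ ≤ ε := by
    have h1 : deriv G ζ - 1 = -(lam - 1) * deriv G ζ := by
      linear_combination hmul
    rw [h1, norm_mul, norm_neg]
    calc ‖lam - 1‖ * ‖deriv G ζ‖ ≤ ε * 1 :=
          mul_le_mul hlam hμ1.le (norm_nonneg _) hε.le
      _ = ε := mul_one ε
  -- rescaling
  set g : ℂ → ℂ := fun w => (G (ζ + R * w) - ζ) / R with hg
  have key : ∀ w : ℂ, g w - w = (G (ζ + R * w) - (ζ + R * w)) / R := by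
    intro w
    rw [hg]
    field_simp
    ring
  have hmaps : MapsTo (fun w : ℂ => ζ + R * w) (Metric.ball 0 1) (Metric.ball ζ R) := by
    intro w hw
    rw [mem_ball_zero_iff] at hw
    rw [Metric.mem_ball, dist_eq_norm, add_sub_cancel_left, norm_mul, nR]
    nlinarith
  have hgd : DifferentiableOn ℂ g (Metric.ball 0 1) := by
    have h1 : DifferentiableOn ℂ (fun w : ℂ => G (ζ + R * w)) (Metric.ball 0 1) :=
      hG.dif.comp (by fun_prop) hmaps
    exact (h1.sub_const ζ).div_const _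
  have hgi : InjOn g (Metric.ball 0 1) := by
    intro w hw w' hw' h
    have h1 : G (ζ + R * w) = G (ζ + R * w') := by
      have h2 : (G (ζ + R * w) - ζ) / R = (G (ζ + R * w') - ζ) / R := h
      rw [div_left_inj' hRc] at h2
      linear_combination h2
    have h3 := hG.inj (hmaps hw) (hmaps hw') h1
    have h4 : (R : ℂ) * w = R * w' := by linear_combination h3
    exact mul_left_cancel₀ hRc h4
  have g0 : g 0 = 0 := by
    rw [hg]
    simp [hG.fix]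
  have g1 : deriv g 0 = deriv G ζ := by
    have h1 : deriv g 0 = deriv (fun w : ℂ => G (ζ + R * w)) 0 / R := by
      rw [hg]
      simp
    have h2 : deriv (fun w : ℂ => G (ζ + R * w)) 0 = R * deriv G (ζ + R * 0) := by
      have h3 := deriv_comp_mul_left (R : ℂ) (fun u : ℂ => G (ζ + u)) 0
      rw [h3, deriv_comp_const_add, smul_eq_mul]
    rw [h1, h2, mul_zero, add_zero]
    field_simp
  have hfx : ∀ w : ℂ, ‖w‖ ≤ η → g w = w → w = 0 := by
    intro w hw hgw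
    have h1 : G (ζ + R * w) = ζ + R * w := by
      have h2 := key w
      rw [hgw, sub_self, eq_comm, div_eq_zero_iff] at h2
      rcases h2 with h2 | h2
      · exact sub_eq_zero.mp h2
      · exact absurd h2 hRc
    have hlt : ‖w‖ < 1 := by linarith
    have hm : ζ + R * w ∈ Metric.ball ζ R := hmaps (mem_ball_zero_iff.mpr hlt)
    have h3 := hG.inv _ hm
    rw [h1] at h3
    have h4 : ‖(ζ + R * w) - ζ‖ ≤ η * R := by
      rw [add_sub_cancel_left, norm_mul, nR]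
      nlinarith
    have h5 := hnf n K k c z D l q _ hq hl2 h4 h3
    have h6 : (R : ℂ) * w = 0 := by linear_combination h5
    exact (mul_eq_zero.mp h6).resolve_left hRc
  have h4 := H g (deriv G ζ) hgd hgi g0 g1 hfx hμ0 hμ3 hμ1.le hμε ((x - ζ) / R) ?_
  · rw [key] at h4
    have h5 : ζ + R * ((x - ζ) / R) = x := by
      field_simp
      ring
    rw [h5, norm_div, nR, div_le_iff₀ hR] at h4
    exact h4
  · rw [norm_div, nR, div_le_iff₀ hR]
    exact hx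

end Pool.Agent.CGP
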