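import Pool.Agent.CGP.Targets
import Pool.Agent.CUSP.P_RNG

/-!
# CGP: p_RNC, the iterate is close to the identity on a circle without points of `PP`
-/

set_option autoImplicit false

open Complex Filter Topology Set
open Pool.Agent.Limb (F)
open Pool.Agent.PLim (Rho)

namespace Pool.Agent.CGP

namespace RNC_

open Pool.Agent.CUSP.RNG_ (sq sq_pos sq_le sq_step)

/-- The chain of branches. -/
lemma chain {CC : ℝ} (hCC : 1 ≤ CC)
    (hcon : ∀ (n m : ℕ) (c y y' : ℂ) (ρ e : ℝ) (g : ℂ → ℂ), 2 ≤ n →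
      0 < ρ → 0 ≤ e → e ≤ 1 / 100 → ‖y' - y‖ ≤ ρ / 12 →
      (∀ x ∈ Metric.ball y' ρ, ∀ j < m, x ≠ (F n c)^[j] c) →
      DifferentiableOn ℂ g (Metric.ball y ρ) → (∀ x ∈ Metric.ball y ρ, (F n c)^[m] (g x) = x) →
      (∀ x : ℂ, ‖x - y‖ ≤ ρ / 6 → ‖g x - x‖ ≤ e * ρ) →
      ∃ g' : ℂ → ℂ, DifferentiableOn ℂ g' (Metric.ball y' ρ) ∧
        (∀ x ∈ Metric.ball y' ρ, (F n c)^[m] (g' x) = x) ∧
        ∀ x : ℂ, ‖x - y'‖ ≤ ρ / 6 → ‖g' x - x‖ ≤ CC * √e * ρ)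
    (n m : ℕ) (c : ℂ) (y : ℕ → ℂ) (ρ e : ℝ) (N : ℕ) (g0 : ℂ → ℂ) (hn : 2 ≤ n) (hρ : 0 < ρ)
    (he : 0 < e) (he1 : e ≤ 1 / 100) (hy : ∀ i, ‖y (i + 1) - y i‖ ≤ ρ / 12)
    (hf : ∀ i, ∀ x ∈ Metric.ball (y i) ρ, ∀ j < m, x ≠ (F n c)^[j] c)
    (hg : DifferentiableOn ℂ g0 (Metric.ball (y 0) ρ))
    (hg1 : ∀ x ∈ Metric.ball (y 0) ρ, (F n c)^[m] (g0 x) = x)
    (hg2 : ∀ x : ℂ, ‖x - y 0‖ ≤ ρ / 6 → ‖g0 x - x‖ ≤ sq e CC N * ρ) (i : ℕ) (hi : i ≤ N) :
    ∃ g : ℂ → ℂ, DifferentiableOn ℂ g (Metric.ball (y i) ρ) ∧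
      (∀ x ∈ Metric.ball (y i) ρ, (F n c)^[m] (g x) = x) ∧
      ∀ x : ℂ, ‖x - y i‖ ≤ ρ / 6 → ‖g x - x‖ ≤ sq e CC (N - i) * ρ := by
  induction i with
  | zero => exact ⟨g0, hg, hg1, hg2⟩
  | succ i ih =>
    obtain ⟨g, h1, h2, h3⟩ := ih (by omega)
    obtain ⟨g', h4, h5, h6⟩ := hcon n m c (y i) (y (i + 1)) ρ (sq e CC (N - i)) g hn hρ
      (sq_pos he hCC _).le ((sq_le he (by linarith) hCC _).trans he1) (hy i) (hf (i + 1)) h1 h2 h3
    refine ⟨g', h4, h5, fun x hx => ?_⟩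
    have h7 := h6 x hx
    have h8 : N - i = (N - (i + 1)) + 1 := by omega
    rw [h8, sq_step he hCC] at h7
    exact h7

end RNC_

open RNC_ in
open Pool.Agent.CUSP.RNG_ (sq sq_pos sq_le sq_step yy yy_norm yy_zero yy_step yy_near solve) in
theorem p_RNC (h1 : T_COG) (h2 : T_FAC) : T_RNC := by
  obtain ⟨CC, hCC, hcon⟩ := h1
  intro δ e1 hδ hδ1 he1
  set es : ℝ := min (1 / 200) (e1 / 2) with hes
  have hes0 : 0 < es := lt_min (by norm_num) (by linarith)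
  have hes1 : es ≤ 1 / 200 := min_le_left _ _
  have hes2 : es ≤ e1 / 2 := min_le_right _ _
  obtain ⟨N, hN⟩ := exists_nat_ge (100 / δ)
  have hN0 : (0 : ℝ) < N := lt_of_lt_of_le (by positivity) hN
  have hN1 : 1 ≤ N := by exact_mod_cast hN0
  have hNδ : 100 ≤ δ * N := by
    rw [div_le_iff₀ hδ] at hN
    linarith
  refine ⟨sq es CC N * δ, mul_pos (sq_pos hes0 hCC N) hδ, ?_⟩
  intro n K k c z hD l q j G r hG hj hτ hGn hr1 hr2 htip x hx
  obtain ⟨hF1, hF2, -, -, -⟩ := h2 n K k c z hD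
  set R : ℝ := Rp n K c (z l) with hR
  have hR0 : 0 < R := (hF2 l).1
  set τ : ℂ := (F n c)^[j] c with hτd
  have hr0 : 0 < r := by linarith
  set v : ℂ := ((r / R : ℝ) : ℂ) * (z l - τ) with hv
  have hvn : ‖v‖ = r := by
    rw [hv, norm_mul, Complex.norm_real, Real.norm_eq_abs, abs_of_pos (by positivity), hτ]
    field_simp
  have hv0 : v ≠ 0 := by
    rw [← norm_pos_iff, hvn]
    exact hr0
  have hπ := Real.pi_pos
  have hπ4 := Real.pi_le_four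
  have hstep : 2 * Real.pi / N * ‖v‖ ≤ δ * R / 12 := by
    rw [hvn, div_mul_eq_mul_div, div_le_iff₀ hN0]
    have h1 : 2 * Real.pi * r ≤ 8 * (R / 2) := by nlinarith
    have h2 : 100 * R ≤ δ * N * R := by nlinarith
    nlinarith
  have hρ : 0 < δ * R := by positivity
  have hy0 : yy τ v N 0 - z l = -(((1 - r / R : ℝ) : ℂ) * (z l - τ)) := by
    rw [yy_zero, hv]
    push_cast
    ring
  have hy0n : ‖yy τ v N 0 - z l‖ = R - r := by
    have h1 : 0 ≤ 1 - r / R := by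
      rw [sub_nonneg, div_le_one hR0]
      linarith
    rw [hy0, norm_neg, norm_mul, Complex.norm_real, Real.norm_eq_abs, abs_of_nonneg h1, hτ]
    field_simp
  have hball : ∀ w ∈ Metric.ball (yy τ v N 0) (δ * R), ‖w - z l‖ ≤ 7 / 8 * R := by
    intro w hw
    rw [mem_ball_iff_norm] at hw
    have h1 : w - z l = (w - yy τ v N 0) + (yy τ v N 0 - z l) := by ring
    rw [h1]
    refine (norm_add_le _ _).trans ?_
    rw [hy0n]
    nlinarith
  have hsub : Metric.ball (yy τ v N 0) (δ * R) ⊆ Metric.ball (z l) R := by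
    intro w hw
    rw [mem_ball_iff_norm]
    exact (hball w hw).trans_lt (by linarith)
  have hfree : ∀ i, ∀ w ∈ Metric.ball (yy τ v N i) (δ * R), ∀ m < k * q,
      w ≠ (F n c)^[m] c := by
    intro i w hw m _ hwm
    obtain ⟨i', hi', he⟩ := hF1 m
    rw [he] at hwm
    rw [mem_ball_iff_norm] at hw
    have h2 := htip i' hi'
    rw [← hwm] at h2
    have h3 : |‖w - τ‖ - r| ≤ ‖w - yy τ v N i‖ := by
      have h4 := abs_norm_sub_norm_le (w - τ) (yy τ v N i - τ)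
      rw [yy_norm, hvn] at h4
      refine h4.trans (le_of_eq ?_)
      congr 1
      ring
    linarith
  obtain ⟨i, hi, hxi⟩ := yy_near τ v x N hN1 hv0 (by rw [hx, hvn])
  obtain ⟨g, hg1, hg2, hg3⟩ := chain hCC hcon n (k * q) c (yy τ v N) (δ * R) es N G hD.hn hρ hes0
    (by linarith) (fun i => (yy_step τ v N i hN1).trans hstep) hfree (hG.dif.mono hsub)
    (fun w hw => hG.inv w (hsub hw))
    (fun w hw => by
      have hw' : w ∈ Metric.ball (yy τ v N 0) (δ * R) := by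
        rw [mem_ball_iff_norm]
        exact hw.trans_lt (by linarith)
      have := hGn w (hball w hw')
      rwa [mul_assoc] at this) i hi
  have hfin := solve ((F n c)^[k * q]) g (yy τ v N i) x (δ * R) es hρ hes0 (by linarith) hg1 hg2
    (fun w hw => (hg3 w hw).trans (by
      have := sq_le hes0 (by linarith) hCC (N - i)
      gcongr)) (hxi.trans hstep)
  refine hfin.trans ?_
  have h1 : δ * R ≤ r / 4 := by nlinarith
  have h2 : 6 * es * (δ * R) ≤ 6 * es * (r / 4) := by gcongr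
  nlinarith

end Pool.Agent.CGP
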