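import Pool.Agent.CGP.Targets

/-!
# CGP: many points of the orbit of the critical value near a bad point (TPC)
-/

set_option autoImplicit false

open Complex Filter Topology Set
open Pool.Agent.Limb (F)
open Pool.Agent.PLim (Rho)

namespace Pool.Agent.CGP

namespace TPC_

/-- Points near circles of different radii are apart. -/
theorem apart (x y p : ℂ) (r s d D : ℝ) (hx : |‖x - p‖ - r| ≤ d) (hy : |‖y - p‖ - s| ≤ d)
    (hrs : D ≤ |r - s|) : D - 2 * d ≤ ‖x - y‖ := by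
  have h1 : |‖x - p‖ - ‖y - p‖| ≤ ‖x - y‖ := by
    have h := abs_norm_sub_norm_le (x - p) (y - p)
    have e : x - p - (y - p) = x - y := by ring
    rwa [e] at h
  have h2 : |r - s| ≤ |‖x - p‖ - r| + |‖x - p‖ - ‖y - p‖| + |‖y - p‖ - s| := by
    have e : r - s = -(‖x - p‖ - r) + (‖x - p‖ - ‖y - p‖) + (‖y - p‖ - s) := by ring
    rw [e]
    refine (abs_add_le _ _).trans ?_
    refine add_le_add ((abs_add_le _ _).trans ?_) le_rfl
    rw [abs_neg]
  linarith

/-- The radii. -/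
theorem radii (K0 : ℕ) (hK : 1 ≤ K0) (R : ℝ) (hR : 0 < R) (i i' : Fin K0) (h : i ≠ i') :
    R / (4 * K0) ≤ |(R / 4 + (i : ℕ) * (R / (4 * K0))) - (R / 4 + (i' : ℕ) * (R / (4 * K0)))| := by
  have hK' : (0 : ℝ) < K0 := by exact_mod_cast hK
  have h0 : 0 < R / (4 * K0) := by positivity
  have h1 : (R / 4 + (i : ℕ) * (R / (4 * K0))) - (R / 4 + (i' : ℕ) * (R / (4 * K0))) =
      (((i : ℕ) : ℝ) - ((i' : ℕ) : ℝ)) * (R / (4 * K0)) := by ring
  rw [h1, abs_mul, abs_of_pos h0]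
  have h2 : (1 : ℝ) ≤ |((i : ℕ) : ℝ) - ((i' : ℕ) : ℝ)| := by
    have h3 : ((i : ℕ) : ℤ) - ((i' : ℕ) : ℤ) ≠ 0 := by
      intro h4
      apply h
      apply Fin.ext
      omega
    have h5 : (1 : ℤ) ≤ |((i : ℕ) : ℤ) - ((i' : ℕ) : ℤ)| := Int.one_le_abs h3
    have h6 : ((1 : ℤ) : ℝ) ≤ ((|((i : ℕ) : ℤ) - ((i' : ℕ) : ℤ)| : ℤ) : ℝ) := by
      exact_mod_cast h5
    simpa using h6
  calc R / (4 * K0) = 1 * (R / (4 * K0)) := (one_mul _).symm
    _ ≤ _ := mul_le_mul_of_nonneg_right h2 h0.le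

/-- The iterates are entire. -/
theorem dif (n : ℕ) (c : ℂ) (m : ℕ) : Differentiable ℂ ((F n c)^[m]) := by
  have h : Differentiable ℂ (F n c) := by
    unfold Pool.Agent.Limb.F
    fun_prop
  exact h.iterate m

/-- Cauchy's estimate: a function close to the identity on a circle has no critical point at the
centre. -/
theorem cau (f : ℂ → ℂ) (hf : Differentiable ℂ f) (t : ℂ) (r : ℝ) (hr : 0 < r)
    (h : ∀ x : ℂ, ‖x - t‖ = r → ‖f x - x‖ ≤ 1 / 2 * r) : deriv f t ≠ 0 := by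
  intro h0
  have hd : Differentiable ℂ (fun x : ℂ => f x - x) := hf.sub differentiable_id
  have h1 := Complex.norm_deriv_le_of_forall_mem_sphere_norm_le (c := t) (R := r)
    (C := 1 / 2 * r) (f := fun x : ℂ => f x - x) hr hd.diffContOnCl
    (fun x hx => h x (by simpa [dist_eq_norm] using hx))
  have h2 : deriv (fun x : ℂ => f x - x) t = -1 := by
    have h3 : HasDerivAt (fun x : ℂ => f x - x) (0 - 1) t := by
      have h4 : HasDerivAt f 0 t := by
        rw [← h0]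
        exact (hf t).hasDerivAt
      exact h4.sub (hasDerivAt_id t)
    rw [h3.deriv]
    ring
  rw [h2] at h1
  have h5 : (1 / 2 * r) / r = 1 / 2 := by
    field_simp
  rw [h5] at h1
  norm_num at h1

end TPC_

open TPC_ in
theorem p_TPC (h₁ : T_NIG) (h₂ : T_RNC) (h₃ : T_BRN) (h₄ : T_FAC) : T_TPC := by
  intro K0 hK0
  have hK : (1 : ℝ) ≤ K0 := by exact_mod_cast hK0
  have hKp : (0 : ℝ) < K0 := by linarith
  have hδ : (0 : ℝ) < 1 / (16 * K0) := by positivity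
  have hδ' : (1 : ℝ) / (16 * K0) ≤ 1 / 16 := by
    apply one_div_le_one_div_of_le (by norm_num)
    linarith
  obtain ⟨e, he, hRNC⟩ := h₂ (1 / (16 * K0)) (1 / 2) hδ hδ' (by norm_num)
  obtain ⟨ε, hε, hNIG⟩ := h₁ e he
  refine ⟨ε, hε, ?_⟩
  intro n K k c z D l q hq hKq ha
  obtain ⟨hPP, hpos, hcrit, hmul, hlm⟩ := h₄ n K k c z D
  obtain ⟨G, hG⟩ := h₃ n K k c z D l q
  obtain ⟨hR, ⟨j, hj, hjR⟩, hdist⟩ := hpos l
  set R := Rp n K c (z l) with hRdef
  have hnear := hNIG n K k c z D l q G hq ha hG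
  have hex : ∀ i : Fin K0, ∃ i' < K,
      |‖(F n c)^[i'] c - (F n c)^[j] c‖ - (R / 4 + (i : ℕ) * (R / (4 * K0)))| ≤
        1 / (16 * K0) * R := by
    intro i
    by_contra hcon
    push Not at hcon
    have hi : ((i : ℕ) : ℝ) ≤ K0 := by exact_mod_cast i.2.le
    have h0 : 0 ≤ ((i : ℕ) : ℝ) * (R / (4 * K0)) := by positivity
    have h1 : ((i : ℕ) : ℝ) * (R / (4 * K0)) ≤ R / 4 := by
      calc ((i : ℕ) : ℝ) * (R / (4 * K0)) ≤ K0 * (R / (4 * K0)) :=
            mul_le_mul_of_nonneg_right hi (by positivity)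
        _ = R / 4 := by field_simp
    have hcirc := hRNC n K k c z D l q j G (R / 4 + (i : ℕ) * (R / (4 * K0))) hG hj hjR hnear
      (by linarith) (by linarith) (fun i' hi' => (hcon i' hi').le)
    exact cau _ (dif n c (k * q)) _ _ (by positivity) hcirc (hcrit (k * q) j hKq)
  choose f hf using hex
  have hδR : 1 / (16 * (K0 : ℝ)) * R ≤ R / 16 := by
    calc 1 / (16 * (K0 : ℝ)) * R ≤ 1 / 16 * R := mul_le_mul_of_nonneg_right hδ' hR.le
      _ = R / 16 := by ring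
  refine ⟨f, fun i => ⟨(hf i).1, ?_⟩, fun i i' hii => ?_⟩
  · have hi : ((i : ℕ) : ℝ) ≤ K0 := by exact_mod_cast i.2.le
    have h1 : ((i : ℕ) : ℝ) * (R / (4 * K0)) ≤ R / 4 := by
      calc ((i : ℕ) : ℝ) * (R / (4 * K0)) ≤ K0 * (R / (4 * K0)) :=
            mul_le_mul_of_nonneg_right hi (by positivity)
        _ = R / 4 := by field_simp
    have h2 := (abs_le.mp (hf i).2).2
    have h3 : ‖(F n c)^[f i] c - z l‖ ≤ ‖(F n c)^[f i] c - (F n c)^[j] c‖ +
        ‖(F n c)^[j] c - z l‖ := norm_sub_le_norm_sub_add_norm_sub _ _ _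
    have h4 : ‖(F n c)^[j] c - z l‖ = R := by rw [norm_sub_rev]; exact hjR
    linarith
  · have h := apart ((F n c)^[f i] c) ((F n c)^[f i'] c) ((F n c)^[j] c) _ _ _ _ (hf i).2
      (hf i').2 (radii K0 hK0 R hR i i' hii)
    have e : R / (4 * K0) - 2 * (1 / (16 * (K0 : ℝ)) * R) = R / (8 * K0) := by
      field_simp
      ring
    rw [e] at h
    refine le_trans ?_ h
    apply div_le_div_of_nonneg_left hR.le (by positivity)
    linarith

end Pool.Agent.CGP
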