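import Pool.Agent.CGP.GapOf
import Pool.Agent.CGP.P_GAP
import Pool.Agent.CGP.P_CRN
import Pool.Agent.CGP.P_LUN
import Pool.Agent.CGP.P_LFN
import Pool.Agent.CGP.P_FAC
import Pool.Agent.CGP.P_BRN
import Pool.Agent.CGP.P_NFX
import Pool.Agent.CGP.P_NIG
import Pool.Agent.CGP.P_COG
import Pool.Agent.CGP.P_RNC
import Pool.Agent.CGP.P_TPC
import Pool.Agent.CGP.P_CTR
import Pool.Agent.CGP.P_DIR
import Pool.Agent.CUSP.P_KDI
import Pool.Agent.CUSP.P_HRK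
import Pool.Agent.CUSP.P_PAK
import Pool.Agent.CUSP.P_NET
import Pool.Agent.AEN.P_TCR

/-!
# CGP: Theorem G, the gap for the multipliers of the repelling cycles at the centres
-/

set_option autoImplicit false

namespace Pool.Agent.CGP

theorem a_FAC : T_FAC := p_FAC p_CRN
theorem a_BRN : T_BRN := p_BRN p_LFN a_FAC
theorem a_NFX : T_NFX := p_NFX a_BRN Pool.Agent.CUSP.p_KDI p_LUN p_CRN a_FAC
theorem a_NIG : T_NIG :=
  p_NIG Pool.Agent.CUSP.p_KDI Pool.Agent.CUSP.p_HRK Pool.Agent.AEN.p_TCR a_NFX a_FAC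
theorem a_COG : T_COG := p_COG p_LFN p_LUN p_CRN Pool.Agent.CUSP.p_KDI Pool.Agent.AEN.p_TCR
theorem a_RNC : T_RNC := p_RNC a_COG a_FAC
theorem a_TPC : T_TPC := p_TPC a_NIG a_RNC a_BRN a_FAC
theorem a_CTR : T_CTR := p_CTR Pool.Agent.CUSP.p_PAK Pool.Agent.CUSP.p_NET
theorem a_GAP : T_GAP := p_GAP a_FAC a_NFX a_TPC a_CTR p_DIR

/-- **Theorem G.** For every `R` there is `e > 0` such that, if `0` has period `K` under
`z ^ n + c`, every repelling cycle of exact period `k ≥ K / R` has a multiplier of modulus at least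
`1 + e`. -/
theorem gap : ∀ R : ℕ, ∃ e : ℝ, 0 < e ∧ ∀ (n K k : ℕ) (c z w : ℂ), 2 ≤ n →
    1 ≤ K → (fun x : ℂ => x ^ n + c)^[K] 0 = 0 → 1 ≤ k → (fun x : ℂ => x ^ n + c)^[k] z = z →
    (∀ j : ℕ, 0 < j → j < k → (fun x : ℂ => x ^ n + c)^[j] z ≠ z) →
    deriv (fun x : ℂ => x ^ n + c)^[k] z = w → 1 < ‖w‖ → K ≤ R * k → 1 + e ≤ ‖w‖ :=
  gap_of a_GAP

end Pool.Agent.CGP
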