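import Pool.Agent.CGP.Targets2
import Pool.Agent.CGP.BasicN
import Pool.Agent.PLim.CNT

/-!
# CGP, target EXA: the exact period is constant on the component
-/

set_option autoImplicit false

open Complex Filter Topology Set
open Pool.Agent.Limb (F)
open Pool.Agent.PLim (Rho)

namespace Pool.Agent.CGP

namespace EXA_

/-- continuity of the iterates along continuous parameters and points -/
lemma cont_iter {n j : ℕ} {P Z : ℂ → ℂ} {S : Set ℂ} (hP : ContinuousOn P S)
    (hZ : ContinuousOn Z S) : ContinuousOn (fun v => (F n (P v))^[j] (Z v)) S :=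
  (Pool.Agent.PLim.CNT_contI n j).comp_continuousOn (hP.prodMk hZ)

end EXA_

theorem p_EXA (h1 : T_NMN) (h2 : T_KUN) : T_EXA := by
  intro n K k P X Z v0 hA hk hZ hfix hv0 j hj v hv hjv
  have hP : ContinuousOn P (Metric.ball 0 1) := hA.dP.continuousOn
  have hE : EqOn Z (fun m => (F n (P m))^[j] (Z m)) (Metric.ball 0 1) := by
    refine h2 n k (Metric.ball 0 1) P Z (fun m => (F n (P m))^[j] (Z m)) v hA.hn hk
      (convex_ball (0 : ℂ) 1).isPreconnected hP hZ (EXA_.cont_iter hP hZ) ?_ hv hjv.symm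
    intro m hm
    exact ⟨hfix m hm, fix_iter (hfix m hm) j,
      h1 n k K (P m) (X m) (Z m) hA.hn hk hA.hK (hA.fix m hm) (hA.att m hm) (hfix m hm)⟩
  exact hj (hE hv0).symm

end Pool.Agent.CGP
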