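import Pool.Agent.CGP.Targets2
import Pool.Agent.PLim.TRANS

/-!
# CGP: the gap on the whole component (GPC)
-/

set_option autoImplicit false

open Complex Filter Topology Set
open Pool.Agent.Limb (F)
open Pool.Agent.PLim (Rho)

namespace Pool.Agent.CGP

namespace GPC_

/-- The data of a cycle. -/
lemma mk_dt {n K k : ℕ} {c z : ℂ} (hn : 2 ≤ n) (hK : 1 ≤ K) (hc : (F n c)^[K] 0 = 0) (hk : 1 ≤ k)
    (hz : (F n c)^[k] z = z) (hx : ∀ j : ℕ, 0 < j → j < k → (F n c)^[j] z ≠ z)
    (h1 : 1 < ‖Rho n k c z‖) : Dt n K k c (fun l => (F n c)^[l] z) := by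
  have key : ∀ l m : ℕ, l < k → m < k → l ≤ m → (F n c)^[l] z = (F n c)^[m] z → l = m := by
    intro l m hl hm hlm heq
    by_contra hne
    have hlt : l < m := lt_of_le_of_ne hlm hne
    have h2 : (F n c)^[k - m + l] z = (F n c)^[k - m + m] z := by
      rw [Function.iterate_add_apply, heq, ← Function.iterate_add_apply]
    rw [Nat.sub_add_cancel hm.le, hz] at h2
    exact hx (k - m + l) (by omega) (by omega) h2
  refine ⟨hn, hK, hc, hk, ?_, ?_, ?_, h1⟩
  · intro l
    exact (Function.iterate_succ_apply' _ _ _).symm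
  · intro l
    show (F n c)^[l + k] z = (F n c)^[l] z
    rw [Function.iterate_add_apply, hz]
  · intro l m hl hm heq
    rcases le_total l m with h3 | h3
    · exact key l m hl hm h3 heq
    · exact (key m l hm hl h3 heq.symm).symm

/-- Elementary estimate. -/
lemma est {e r x y : ℝ} (he : 0 < e) (hr : r < 1) (hx : 1 + e ≤ x) (hy : 1 < y)
    (h : (1 - r) * Real.log x ≤ 2 * Real.log y) : 1 + min e 1 / 4 * (1 - r) ≤ y := by
  set s : ℝ := min e 1 with hs
  have hs0 : 0 < s := lt_min he one_pos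
  have hs1 : s ≤ 1 := min_le_right _ _
  have hse : s ≤ e := min_le_left _ _
  have h1 : s / 2 ≤ Real.log x := by
    have h2 : 1 - (1 + s)⁻¹ ≤ Real.log (1 + s) := Real.one_sub_inv_le_log_of_pos (by linarith)
    have h3 : Real.log (1 + s) ≤ Real.log x := Real.log_le_log (by linarith) (by linarith)
    have h4 : s / 2 ≤ 1 - (1 + s)⁻¹ := by
      have h5 : 1 - (1 + s)⁻¹ = s / (1 + s) := by
        field_simp
        ring
      rw [h5]
      exact div_le_div_of_nonneg_left hs0.le (by linarith) (by linarith)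
    linarith
  have h6 : (1 - r) * (s / 2) ≤ (1 - r) * Real.log x :=
    mul_le_mul_of_nonneg_left h1 (by linarith)
  have h7 : Real.log y ≤ y - 1 := Real.log_le_sub_one_of_pos (by linarith)
  nlinarith

end GPC_

open GPC_ in
theorem p_GPC (h₁ : T_GAP) (h₂ : T_KSN) (h₃ : T_NMN) (h₄ : T_REP) (h₅ : T_EXA) (h₆ : T_HNK) :
    T_GPC := by
  intro R
  obtain ⟨e, he, hG⟩ := h₁ R
  refine ⟨min e 1 / 4, by have := lt_min he (one_pos (α := ℝ)); linarith, ?_⟩
  intro n K k P X A hcen hk hKk v hv z hz hex hrep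
  have h0 : (0 : ℂ) ∈ Metric.ball (0 : ℂ) 1 := Metric.mem_ball_self one_pos
  obtain ⟨Z, hZd, hZv, hZf⟩ := h₂ n k (Metric.ball 0 1) P A.hn hk Metric.isOpen_ball
    (convex_ball _ _) A.dP
    (fun m hm x hx => h₃ n k K (P m) (X m) x A.hn hk A.hK (A.fix m hm) (A.att m hm) hx)
    v hv z hz
  have hR := h₄ n K k P X Z v A hk hZd.continuousOn hZf hv (by rw [hZv]; exact hrep)
  have hE : ∀ j : ℕ, 0 < j → j < k → (F n (P 0))^[j] (Z 0) ≠ Z 0 := fun j hj hjk =>
    h₅ n K k P X Z v A hk hZd.continuousOn hZf hv j (by rw [hZv]; exact hex j hj hjk) 0 h0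
  have hgap : 1 + e ≤ ‖Rho n k (P 0) (Z 0)‖ :=
    hG n K k (P 0) _ (mk_dt A.hn A.hK hcen hk (hZf 0 h0) hE (hR 0 h0)) hKk
  have hd : DifferentiableOn ℂ (fun u => Rho n k (P u) (Z u)) (Metric.ball 0 1) := by
    have e1 : ∀ u : ℂ, Rho n k (P u) (Z u) =
        ∏ i ∈ Finset.range k, ((n : ℂ) * ((F n (P u))^[i] (Z u)) ^ (n - 1)) := fun u =>
      Pool.Agent.PLim.TRANS_.Rho_eq n k (P u) (Z u)
    have e2 : ∀ i : ℕ, DifferentiableOn ℂ (fun u => (F n (P u))^[i] (Z u)) (Metric.ball 0 1) := by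
      intro i
      induction i with
      | zero => exact hZd
      | succ i ih =>
        have e3 : (fun u => (F n (P u))^[i + 1] (Z u)) =
            fun u => ((F n (P u))^[i] (Z u)) ^ n + P u := by
          funext u
          rw [Function.iterate_succ_apply']
          rfl
        rw [e3]
        exact (ih.pow n).add A.dP
    have e4 : (fun u => Rho n k (P u) (Z u)) =
        fun u => ∏ i ∈ Finset.range k, ((n : ℂ) * ((F n (P u))^[i] (Z u)) ^ (n - 1)) := funext e1
    rw [e4]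
    exact DifferentiableOn.fun_finsetProd fun i _ => ((e2 i).pow (n - 1)).const_mul _
  have hh := h₆ (fun u => Rho n k (P u) (Z u)) hd hR v hv
  have h3 := hR v hv
  rw [hZv] at h3
  simp only [hZv] at hh
  exact est he (by rwa [mem_ball_zero_iff] at hv) hgap h3 hh

end Pool.Agent.CGP
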