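import Pool.Agent.CGP.Targets2

/-!
# CGP-HNK: Harnack's inequality for functions of modulus larger than one
-/

set_option autoImplicit false

open Complex Filter Topology Set
open Pool.Agent.Limb (F)
open Pool.Agent.PLim (Rho)

namespace Pool.Agent.CGP

namespace HNK_

/-- A holomorphic logarithm on the unit disc. -/
theorem exists_log (y : ℂ → ℂ) (hd : DifferentiableOn ℂ y (Metric.ball 0 1))
    (h0 : ∀ x ∈ Metric.ball (0 : ℂ) 1, y x ≠ 0) :
    ∃ v : ℂ → ℂ, DifferentiableOn ℂ v (Metric.ball 0 1) ∧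
      ∀ x ∈ Metric.ball (0 : ℂ) 1, y x = exp (v x) := by
  have hdy : DifferentiableOn ℂ (deriv y) (Metric.ball 0 1) := hd.deriv Metric.isOpen_ball
  have hq : DifferentiableOn ℂ (fun x => deriv y x / y x) (Metric.ball 0 1) :=
    hdy.div hd h0
  obtain ⟨v, hva, hv⟩ := hq.isExactOn_ball.with_val_at 0 (log (y 0))
  have ha : (0 : ℂ) ∈ Metric.ball (0 : ℂ) 1 := Metric.mem_ball_self one_pos
  refine ⟨v, fun x hx => (hv x hx).differentiableAt.differentiableWithinAt, ?_⟩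
  intro x hx
  have h1 : ∀ t ∈ Metric.ball (0 : ℂ) 1, HasDerivWithinAt (fun t => y t * exp (-v t)) 0
      (Metric.ball 0 1) t := by
    intro t ht
    have h2 : HasDerivAt y (deriv y t) t :=
      (hd.differentiableAt (Metric.isOpen_ball.mem_nhds ht)).hasDerivAt
    have h3 := h2.mul ((hv t ht).neg.cexp)
    have h4 : deriv y t * exp (-v t) + y t * (exp (-v t) * -(deriv y t / y t)) = 0 := by
      have h5 := h0 t ht
      field_simp
      ring
    have h6 : HasDerivAt (fun t => y t * exp (-v t))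
        (deriv y t * exp (-v t) + y t * (exp (-v t) * -(deriv y t / y t))) t := h3
    rw [h4] at h6
    exact h6.hasDerivWithinAt
  have h2 := (convex_ball (0 : ℂ) 1).norm_image_sub_le_of_norm_hasDerivWithin_le (C := 0) h1
    (fun t _ => by simp) ha hx
  rw [zero_mul, norm_le_zero_iff, sub_eq_zero, hva] at h2
  simp only [exp_neg] at h2
  rw [exp_log (h0 0 ha), mul_inv_cancel₀ (h0 0 ha)] at h2
  exact (mul_inv_eq_one₀ (exp_ne_zero _)).mp h2

/-- The algebra of the half plane. -/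
theorem alg {p q : ℂ} {r : ℝ} (hr0 : 0 ≤ r) (hr1 : r ≤ 1) (hp : 0 < p.re) (hq : 0 < q.re)
    (h : ‖p - q‖ ≤ r * ‖p + (starRingEnd ℂ) q‖) : (1 - r) * q.re ≤ 2 * p.re := by
  have h2 : ‖p - q‖ ^ 2 ≤ (r * ‖p + (starRingEnd ℂ) q‖) ^ 2 :=
    pow_le_pow_left₀ (norm_nonneg _) h 2
  rw [mul_pow, ← normSq_eq_norm_sq, ← normSq_eq_norm_sq, normSq_apply, normSq_apply, sub_re,
    sub_im, add_re, add_im, conj_re, conj_im] at h2
  have h3 : r ^ 2 ≤ 1 := by nlinarith
  have h4 : (p.re - q.re) ^ 2 ≤ (r * (p.re + q.re)) ^ 2 := by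
    nlinarith [mul_nonneg (sub_nonneg.mpr h3) (sq_nonneg (p.im - q.im))]
  have h5 : |p.re - q.re| ≤ r * (p.re + q.re) :=
    abs_le_of_sq_le_sq h4 (mul_nonneg hr0 (by linarith))
  have h6 := (abs_le.mp h5).1
  nlinarith

end HNK_

open HNK_ Metric in
theorem p_HNK : T_HNK := by
  intro w hw hw1 x hx
  have h0 : (0 : ℂ) ∈ ball (0 : ℂ) 1 := mem_ball_self one_pos
  have hwne : ∀ z ∈ ball (0 : ℂ) 1, w z ≠ 0 := by
    intro z hz h
    have := hw1 z hz
    rw [h, norm_zero] at this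
    linarith
  obtain ⟨H, hH, hHe⟩ := exists_log w hw hwne
  have hlog : ∀ z ∈ ball (0 : ℂ) 1, Real.log ‖w z‖ = (H z).re := by
    intro z hz
    rw [hHe z hz, norm_exp, Real.log_exp]
  have hre : ∀ z ∈ ball (0 : ℂ) 1, 0 < (H z).re := by
    intro z hz
    rw [← hlog z hz]
    exact Real.log_pos (hw1 z hz)
  have hne : ∀ z ∈ ball (0 : ℂ) 1, H z + (starRingEnd ℂ) (H 0) ≠ 0 := by
    intro z hz h
    have h1 := congrArg Complex.re h
    rw [add_re, conj_re, zero_re] at h1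
    linarith [hre z hz, hre 0 h0]
  set φ : ℂ → ℂ := fun z => (H z - H 0) / (H z + (starRingEnd ℂ) (H 0)) with hφ
  have hφd : DifferentiableOn ℂ φ (ball 0 1) :=
    (hH.sub_const _).div (hH.add_const _) hne
  have hmap : MapsTo φ (ball 0 1) (closedBall 0 1) := by
    intro z hz
    rw [mem_closedBall_zero_iff]
    show ‖(H z - H 0) / (H z + (starRingEnd ℂ) (H 0))‖ ≤ 1
    rw [norm_div, div_le_one (norm_pos_iff.mpr (hne z hz))]
    refine (sq_le_sq₀ (norm_nonneg _) (norm_nonneg _)).mp ?_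
    rw [← normSq_eq_norm_sq, ← normSq_eq_norm_sq, normSq_apply, normSq_apply, sub_re, sub_im,
      add_re, add_im, conj_re, conj_im]
    nlinarith [mul_pos (hre z hz) (hre 0 h0)]
  have hφ0 : φ 0 = 0 := by
    show (H 0 - H 0) / (H 0 + (starRingEnd ℂ) (H 0)) = 0
    rw [sub_self, zero_div]
  have hx1 : ‖x‖ < 1 := by
    rw [mem_ball_zero_iff] at hx
    exact hx
  have hs : ‖φ x‖ ≤ ‖x‖ := norm_le_norm_of_mapsTo_ball hφd hmap hφ0 hx1
  have h1 : ‖H x - H 0‖ ≤ ‖x‖ * ‖H x + (starRingEnd ℂ) (H 0)‖ := by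
    have h3 : ‖(H x - H 0) / (H x + (starRingEnd ℂ) (H 0))‖ ≤ ‖x‖ := hs
    rwa [norm_div, div_le_iff₀ (norm_pos_iff.mpr (hne x hx))] at h3
  rw [hlog 0 h0, hlog x hx]
  exact alg (norm_nonneg _) hx1.le (hre x hx) (hre 0 h0) h1

end Pool.Agent.CGP
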