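import Pool.Agent.CGP.Targets2
import Pool.Agent.PLim.MP
import Pool.Agent.PLim.CNT

/-!
# CGP, KSN: continuation of the fixed points of an iterate over a convex set
-/

set_option autoImplicit false

open Complex Filter Topology Set MeasureTheory
open Pool.Agent.Limb (F)
open Pool.Agent.PLim (Rho LocFix)

namespace Pool.Agent.CGP

namespace KSN_

open Pool.Agent.PLim (FPol CNT_eval CNT_mem)
open Pool.Agent.PLim.MPx (fix_monic Rho_eq)

/-- If no fixed point of the iterate has multiplier one, the fixed points are simple roots. -/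
lemma nodup (n k : ℕ) (hn : 2 ≤ n) (hk : 1 ≤ k) (c : ℂ)
    (h : ∀ z : ℂ, (F n c)^[k] z = z → Rho n k c z ≠ 1) :
    (FPol n c k - Polynomial.X).roots.Nodup := by
  rw [Multiset.nodup_iff_count_le_one]
  intro z
  rw [Polynomial.count_roots]
  by_contra hlt
  rw [not_le] at hlt
  have hne := (fix_monic n k c hn hk).1.ne_zero
  obtain ⟨h1, h2⟩ := (Polynomial.one_lt_rootMultiplicity_iff_isRoot hne).mp hlt
  rw [Polynomial.IsRoot.def, Polynomial.eval_sub, Polynomial.eval_X, CNT_eval,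
    sub_eq_zero] at h1
  rw [Polynomial.IsRoot.def, Polynomial.derivative_sub, Polynomial.derivative_X,
    Polynomial.eval_sub, Polynomial.eval_one, ← Rho_eq, sub_eq_zero] at h2
  exact h z h1 h2

/-- There are `n ^ k` fixed points. -/
lemma card (n k : ℕ) (hn : 2 ≤ n) (hk : 1 ≤ k) (c : ℂ)
    (h : ∀ z : ℂ, (F n c)^[k] z = z → Rho n k c z ≠ 1) :
    (FPol n c k - Polynomial.X).roots.toFinset.card = n ^ k := by
  rw [Multiset.toFinset_card_of_nodup (nodup n k hn hk c h), ← (fix_monic n k c hn hk).2]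
  exact Polynomial.splits_iff_card_roots.mp (IsAlgClosed.splits _)

end KSN_

open Pool.Agent.PLim (FPol CNT_mem) in
theorem p_KSN (h₁ : Pool.Agent.PSat.T_LIFC) (h₂ : Pool.Agent.PLim.T_LOCZ) : T_KSN := by
  intro n k W Q hn hk hWo hWc hQ hne m0 hm0 z0 hz0
  obtain ⟨T, hT⟩ : ∃ T : ℂ → Finset ℂ,
      ∀ m, T m = (FPol n (Q m) k - Polynomial.X).roots.toFinset := ⟨_, fun _ => rfl⟩
  have hmem : ∀ m z : ℂ, z ∈ T m ↔ (F n (Q m))^[k] z = z := fun m z => by
    rw [hT, Multiset.mem_toFinset, CNT_mem hn hk]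
  have hcard : ∀ m ∈ W, (T m).card = n ^ k := fun m hm => by
    rw [hT]
    exact KSN_.card n k hn hk (Q m) (hne m hm)
  have hloc : ∀ m ∈ W, ∀ z : ℂ, (F n (Q m))^[k] z = z →
      ∃ (ε r : ℝ) (zf : ℂ → ℂ), LocFix n k (Q m) z ε r zf := by
    intro m hm z hz
    obtain ⟨ε, r, zf, -, -, hL⟩ := h₂ n k (Q m) z 1 hn one_pos hz (hne m hm z hz)
    exact ⟨ε, r, zf, hL⟩
  have hQc : ∀ m ∈ W, ContinuousAt Q m := fun m hm =>
    hQ.continuousOn.continuousAt (hWo.mem_nhds hm)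
  obtain ⟨Z, hZc, hZ0, hZT⟩ := h₁ W T (n ^ k) hWo hWc hcard (by
    intro m hm z hz
    obtain ⟨ε, r, zf, hL⟩ := hloc m hm z ((hmem m z).mp hz)
    have h1 : ∀ᶠ m' in 𝓝 m, Q m' ∈ Metric.ball (Q m) ε ∧ m' ∈ W :=
      ((hQc m hm).eventually (Metric.ball_mem_nhds _ hL.hδ)).and (hWo.mem_nhds hm)
    obtain ⟨δ, hδ, hδ1⟩ := Metric.eventually_nhds_iff_ball.mp h1
    refine ⟨δ, fun m' => zf (Q m'), hδ, ?_, hL.zf0, ?_⟩
    · exact hL.diff.continuousOn.comp
        (hQ.continuousOn.mono fun m' hm' => (hδ1 m' hm').2) fun m' hm' => (hδ1 m' hm').1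
    · intro m' hm'
      rw [hmem]
      exact hL.fix _ (hδ1 m' hm'.1).1) m0 hm0 z0 ((hmem _ _).mpr hz0)
  refine ⟨Z, ?_, hZ0, fun m hm => (hmem _ _).mp (hZT m hm)⟩
  intro m hm
  obtain ⟨ε, r, zf, hL⟩ := hloc m hm (Z m) ((hmem _ _).mp (hZT m hm))
  have hWn : W ∈ 𝓝 m := hWo.mem_nhds hm
  have e1 : ∀ᶠ m' in 𝓝 m, Q m' ∈ Metric.ball (Q m) ε :=
    (hQc m hm).eventually (Metric.ball_mem_nhds _ hL.hδ)
  have e2 : ∀ᶠ m' in 𝓝 m, Z m' ∈ Metric.ball (Z m) r :=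
    (hZc.continuousAt hWn).eventually (Metric.ball_mem_nhds _ hL.hr)
  have e3 : Z =ᶠ[𝓝 m] fun m' => zf (Q m') := by
    filter_upwards [hWn, e1, e2] with m' b0 b1 b2
    exact hL.uniq (Q m') b1 (Z m') b2 ((hmem _ _).mp (hZT m' b0))
  refine (DifferentiableAt.congr_of_eventuallyEq ?_ e3).differentiableWithinAt
  exact (hL.diff.differentiableAt (Metric.ball_mem_nhds _ hL.hδ)).comp m
    (hQ.differentiableAt hWn)

end Pool.Agent.CGP
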