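import Pool.Agent.CGP.Targets2

/-!
# CGP, target KUN: uniqueness of the continuation of fixed points over a preconnected set
-/

set_option autoImplicit false

open Complex Filter Topology Set
open Pool.Agent.Limb (F)
open Pool.Agent.PLim (Rho)

namespace Pool.Agent.CGP

theorem p_KUN (h : Pool.Agent.PLim.T_LOCZ) : T_KUN := by
  intro n k S Q Z Z' m0 hn hk hS hQ hZ hZ' hfix hm0 h0
  have hpc : PreconnectedSpace S := isPreconnected_iff_preconnectedSpace.mp hS
  rw [continuousOn_iff_continuous_domRestrict] at hQ hZ hZ'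
  set A : Set S := {x | S.domRestrict Z x = S.domRestrict Z' x} with hA
  have hcl : IsClosed A := isClosed_eq hZ hZ'
  have hop : IsOpen A := by
    rw [isOpen_iff_mem_nhds]
    intro x hx
    have hx' : Z x.1 = Z' x.1 := hx
    obtain ⟨f1, f2, f3⟩ := hfix x.1 x.2
    obtain ⟨ε, r, zf, -, -, hL⟩ := h n k (Q x.1) (Z x.1) 1 hn one_pos f1 f3
    have a1 : ∀ᶠ y : S in 𝓝 x, Q y.1 ∈ Metric.ball (Q x.1) ε :=
      hQ.continuousAt.eventually_mem (Metric.ball_mem_nhds _ hL.hδ)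
    have a2 : ∀ᶠ y : S in 𝓝 x, Z y.1 ∈ Metric.ball (Z x.1) r :=
      hZ.continuousAt.eventually_mem (Metric.ball_mem_nhds _ hL.hr)
    have a3 : ∀ᶠ y : S in 𝓝 x, Z' y.1 ∈ Metric.ball (Z x.1) r := by
      have hb : Metric.ball (Z x.1) r ∈ 𝓝 (Z' x.1) := by
        rw [← hx']
        exact Metric.ball_mem_nhds _ hL.hr
      exact hZ'.continuousAt.eventually_mem hb
    filter_upwards [a1, a2, a3] with y h1 h2 h3
    obtain ⟨g1, g2, -⟩ := hfix y.1 y.2
    exact (hL.uniq _ h1 _ h2 g1).trans (hL.uniq _ h1 _ h3 g2).symm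
  have huniv : A = univ := IsClopen.eq_univ ⟨hcl, hop⟩ ⟨⟨m0, hm0⟩, h0⟩
  intro m hm
  have h1 : (⟨m, hm⟩ : S) ∈ A := by
    rw [huniv]
    trivial
  exact h1

end Pool.Agent.CGP
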