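import Pool.Agent.CGP.Targets2
import Pool.Agent.PLim.LOCZ
import Pool.Agent.PLim.CNT
import Pool.Agent.PLim.MP
import Pool.Agent.PSat.MPL

/-!
# CGP-MPN: the minimum principle for the multipliers near a parabolic point, all `n`

The sum of the logarithms of the multipliers of the fixed points near `z1` is holomorphic in the
parameter; its real part has a strict minimum at `c1`, which is impossible.
-/

set_option autoImplicit false

open Complex Filter Topology Set MeasureTheory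
open Pool.Agent.Limb (F)
open Pool.Agent.PLim (Rho LocFix FPol CNT_mem CNT_card CNT_eval CNT_contI CNT_contR CNT_diffR)

namespace Pool.Agent.CGP

namespace MPN_

variable {n k : ℕ}

/-- `z` is fixed by the iterate of order `k` at the parameter `c` -/
def Fx (n k : ℕ) (c z : ℂ) : Prop := (F n c)^[k] z = z

lemma fin (hn : 2 ≤ n) (hk : 1 ≤ k) (c : ℂ) : {z : ℂ | Fx n k c z}.Finite := by
  refine Set.Finite.subset ((FPol n c k - Polynomial.X).roots.toFinset.finite_toSet) ?_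
  intro z hz
  rw [Finset.mem_coe, Multiset.mem_toFinset, CNT_mem hn hk]
  exact hz

lemma card_le (hn : 2 ≤ n) (hk : 1 ≤ k) (c : ℂ) (S : Finset ℂ) (hS : ∀ z ∈ S, Fx n k c z) :
    S.card ≤ n ^ k := by
  have h1 : S ⊆ (FPol n c k - Polynomial.X).roots.toFinset := by
    intro z hz
    rw [Multiset.mem_toFinset, CNT_mem hn hk]
    exact hS z hz
  exact (Finset.card_le_card h1).trans
    ((Multiset.toFinset_card_le _).trans (CNT_card hn hk _))

/-- compactness -/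
lemma comp_near {c2 : ℂ} {A U : Set ℂ}
    (hA : IsCompact A) (hU : IsOpen U) (hAU : ∀ z ∈ A, Fx n k c2 z → z ∈ U) :
    ∀ᶠ c in 𝓝 c2, ∀ z ∈ A, Fx n k c z → z ∈ U := by
  have h1 : IsCompact (A \ U) := hA.diff hU
  have h2 : ∀ᶠ c in 𝓝 c2, ∀ z ∈ A \ U, ¬ Fx n k c z := by
    refine h1.eventually_forall_of_forall_eventually (P := fun c z => ¬ Fx n k c z) ?_
    intro z hz
    have h3 : ContinuousAt (fun x : ℂ × ℂ => (F n x.1)^[k] x.2 - x.2) (c2, z) :=
      (CNT_contI n k).continuousAt.sub continuous_snd.continuousAt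
    have h4 : (F n (c2, z).1)^[k] (c2, z).2 - (c2, z).2 ≠ 0 := by
      intro h5
      exact hz.2 (hAU z hz.1 (sub_eq_zero.mp h5))
    filter_upwards [h3.eventually_ne h4] with x hx hfx
    exact hx (sub_eq_zero.mpr hfx)
  filter_upwards [h2] with c hc' z hz hfx
  by_contra hnn
  exact hc' z ⟨hz, hnn⟩ hfx

/-- existence of a fixed point near `z1` -/
lemma ex_fix (hn : 2 ≤ n) (hk : 1 ≤ k) {c1 z1 : ℂ} (hz : Fx n k c1 z1)
    {d : ℝ} (hd : 0 < d) : ∀ᶠ c in 𝓝 c1, ∃ z : ℂ, ‖z - z1‖ < d ∧ Fx n k c z := by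
  have h1 : ContinuousAt (fun c : ℂ => (F n c)^[k] z1 - z1) c1 := by
    have h2 : ContinuousAt (fun q : ℂ × ℂ => (F n q.1)^[k] q.2) (c1, z1) :=
      (CNT_contI n k).continuousAt
    have h3 : ContinuousAt (fun c : ℂ => (c, z1)) c1 := by fun_prop
    exact (ContinuousAt.comp (f := fun c : ℂ => (c, z1))
      (g := fun x : ℂ × ℂ => (F n x.1)^[k] x.2) h2 h3).sub continuousAt_const
  have h4 : ‖(F n c1)^[k] z1 - z1‖ < d ^ (n ^ k) := by
    have h5 : (F n c1)^[k] z1 - z1 = 0 := sub_eq_zero.mpr hz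
    rw [h5, norm_zero]
    positivity
  filter_upwards [h1.norm.eventually_lt continuousAt_const h4] with c hc'
  by_contra hnn
  push Not at hnn
  obtain ⟨hm, hdeg⟩ := Pool.Agent.PLim.MPx.fix_monic n k c hn hk
  have hs : (FPol n c k - Polynomial.X).Splits := IsAlgClosed.splits _
  have h6 := hs.eval_eq_prod_roots_of_monic hm z1
  have hcard : Multiset.card (FPol n c k - Polynomial.X).roots = n ^ k := by
    rw [← hdeg]
    exact Polynomial.splits_iff_card_roots.mp hs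
  rw [Polynomial.eval_sub, Polynomial.eval_X, CNT_eval] at h6
  rw [h6] at hc'
  have h7 : ∀ M : Multiset ℂ, (∀ z ∈ M, d ≤ ‖z1 - z‖) →
      d ^ (Multiset.card M) ≤ ‖(M.map (fun z => z1 - z)).prod‖ := by
    intro M
    induction M using Multiset.induction with
    | empty => simp
    | cons a M ih =>
      intro hM
      rw [Multiset.map_cons, Multiset.prod_cons, Multiset.card_cons, pow_succ', norm_mul]
      exact mul_le_mul (hM a (Multiset.mem_cons_self a M))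
        (ih fun z hz => hM z (Multiset.mem_cons_of_mem hz)) (by positivity) (norm_nonneg _)
  have h8 := h7 (FPol n c k - Polynomial.X).roots (by
    intro z hz
    rw [CNT_mem hn hk] at hz
    by_contra hlt
    rw [not_le, norm_sub_rev] at hlt
    exact hnn z hlt hz)
  rw [hcard] at h8
  linarith

/-- one point -/
lemma loc1 (hn : 2 ≤ n) {c2 z1 : ℂ} {d : ℝ} (w : ℂ) : ∃ (f : ℂ → ℂ) (r : ℝ),
    ‖w - z1‖ < d → Fx n k c2 w → Rho n k c2 w ≠ 1 →
    0 < r ∧ f c2 = w ∧ ContinuousAt f c2 ∧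
    DifferentiableAt ℂ (fun c => Rho n k c (f c)) c2 ∧
    ∀ᶠ c in 𝓝 c2, ‖f c - z1‖ < d ∧ Fx n k c (f c) ∧
      ∀ z ∈ Metric.ball w r, Fx n k c z → z = f c := by
  by_cases hw : Fx n k c2 w ∧ Rho n k c2 w ≠ 1
  swap
  · exact ⟨fun _ => 0, 1, fun _ h1 h2 => absurd ⟨h1, h2⟩ hw⟩
  obtain ⟨δ, r, f, -, -, hL⟩ :=
    Pool.Agent.PLim.p_LOCZ n k c2 w 1 hn one_pos hw.1 hw.2
  refine ⟨f, r, fun hwd _ _ => ?_⟩
  have hnh : Metric.ball c2 δ ∈ 𝓝 c2 := Metric.ball_mem_nhds _ hL.hδ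
  have hfc : ContinuousAt f c2 := (hL.diff.differentiableAt hnh).continuousAt
  refine ⟨hL.hr, hL.zf0, hfc, (CNT_diffR n k f _ hL.diff).differentiableAt hnh, ?_⟩
  have h1 : ∀ᶠ c in 𝓝 c2, ‖f c - z1‖ < d := by
    have h2 : ContinuousAt (fun c => ‖f c - z1‖) c2 := (hfc.sub continuousAt_const).norm
    refine h2.eventually_lt continuousAt_const ?_
    rw [hL.zf0]
    exact hwd
  filter_upwards [h1, hnh] with c a1 a5
  exact ⟨a1, hL.fix c a5, fun z hz hfx => hL.uniq c a5 z hz hfx⟩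

open Classical in
/-- the set of the fixed points near `z1` -/
noncomputable def Sf (hn : 2 ≤ n) (hk : 1 ≤ k) (z1 : ℂ) (d : ℝ) (c : ℂ) : Finset ℂ :=
  (fin hn hk c).toFinset.filter fun z => ‖z - z1‖ < d

lemma mem_Sf (hn : 2 ≤ n) (hk : 1 ≤ k) (z1 : ℂ) (d : ℝ) (c z : ℂ) :
    z ∈ Sf hn hk z1 d c ↔ ‖z - z1‖ < d ∧ Fx n k c z := by
  classical
  unfold Sf
  rw [Finset.mem_filter, Set.Finite.mem_toFinset, Set.mem_ofPred_eq]
  tauto

/-- the sum of the logarithms -/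
noncomputable def hf (hn : 2 ≤ n) (hk : 1 ≤ k) (z1 : ℂ) (d : ℝ) (c : ℂ) : ℂ :=
  ∑ z ∈ Sf hn hk z1 d c, Complex.log (Rho n k c z)

/-- local structure -/
lemma diff_at (hn : 2 ≤ n) (hk : 1 ≤ k) {c2 z1 : ℂ} {d : ℝ}
    (hin : ∀ z ∈ Metric.closedBall z1 d, Fx n k c2 z → ‖z - z1‖ < d)
    (hne : ∀ z : ℂ, ‖z - z1‖ < d → Fx n k c2 z → Rho n k c2 z ≠ 1)
    (hsl : ∀ z : ℂ, ‖z - z1‖ < d → Fx n k c2 z → Rho n k c2 z ∈ slitPlane) :
    DifferentiableAt ℂ (hf hn hk z1 d) c2 := by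
  classical
  choose f r hfr using fun w : ℂ => loc1 hn (k := k) (c2 := c2) (z1 := z1) (d := d) w
  have hT1 : ∀ w ∈ Sf hn hk z1 d c2, 0 < r w ∧ f w c2 = w ∧ ContinuousAt (f w) c2 ∧
      DifferentiableAt ℂ (fun c => Rho n k c (f w c)) c2 ∧
      ∀ᶠ c in 𝓝 c2, ‖f w c - z1‖ < d ∧ Fx n k c (f w c) ∧
        ∀ z ∈ Metric.ball w (r w), Fx n k c z → z = f w c := by
    intro w hw
    rw [mem_Sf] at hw
    exact hfr w hw.1 hw.2 (hne w hw.1 hw.2)
  -- all the fixed points are continuations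
  have hc : ∀ᶠ c in 𝓝 c2, ∀ z ∈ Metric.closedBall z1 d, Fx n k c z →
      z ∈ ⋃ w ∈ Sf hn hk z1 d c2, Metric.ball w (r w) := by
    refine comp_near (isCompact_closedBall z1 d)
      (isOpen_biUnion fun w _ => Metric.isOpen_ball) ?_
    intro z hz hfx
    have hzT : z ∈ Sf hn hk z1 d c2 := (mem_Sf hn hk z1 d c2 z).mpr ⟨hin z hz hfx, hfx⟩
    exact mem_biUnion hzT (Metric.mem_ball_self (hT1 z hzT).1)
  have hall : ∀ᶠ c in 𝓝 c2, ∀ w ∈ Sf hn hk z1 d c2, ‖f w c - z1‖ < d ∧ Fx n k c (f w c) ∧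
      ∀ z ∈ Metric.ball w (r w), Fx n k c z → z = f w c := by
    rw [Finset.eventually_all]
    exact fun w hw => (hT1 w hw).2.2.2.2
  have hinj : ∀ᶠ c in 𝓝 c2, ∀ w ∈ Sf hn hk z1 d c2, ∀ w' ∈ Sf hn hk z1 d c2,
      w ≠ w' → f w c ≠ f w' c := by
    rw [Finset.eventually_all]
    intro w hw
    rw [Finset.eventually_all]
    intro w' hw'
    by_cases hww : w = w'
    · exact Eventually.of_forall fun c h1 => absurd hww h1
    have h0 : ContinuousAt (fun c => f w c - f w' c) c2 :=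
      (hT1 w hw).2.2.1.sub (hT1 w' hw').2.2.1
    have h1 : ∀ᶠ c in 𝓝 c2, f w c - f w' c ≠ 0 := by
      refine h0.eventually_ne ?_
      rw [(hT1 w hw).2.1, (hT1 w' hw').2.1]
      exact sub_ne_zero.mpr hww
    filter_upwards [h1] with c hc' _ h2
    exact hc' (sub_eq_zero.mpr h2)
  have hev : ∀ᶠ c in 𝓝 c2, hf hn hk z1 d c =
      ∑ w ∈ Sf hn hk z1 d c2, Complex.log (Rho n k c (f w c)) := by
    filter_upwards [hc, hall, hinj] with c b1 b2 b3
    unfold hf
    have h1 : Sf hn hk z1 d c = (Sf hn hk z1 d c2).image fun w => f w c := by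
      ext z
      rw [mem_Sf, Finset.mem_image]
      constructor
      · rintro ⟨c1, c3⟩
        have h2 := b1 z (by rw [mem_closedBall_iff_norm]; exact c1.le) c3
        simp only [mem_iUnion, exists_prop] at h2
        obtain ⟨w, hw, hzw⟩ := h2
        exact ⟨w, hw, ((b2 w hw).2.2 z hzw c3).symm⟩
      · rintro ⟨w, hw, rfl⟩
        exact ⟨(b2 w hw).1, (b2 w hw).2.1⟩
    rw [h1, Finset.sum_image]
    intro w hw w' hw' hww
    by_contra hnn
    exact b3 w hw w' hw' hnn hww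
  have hd : DifferentiableAt ℂ
      (fun c => ∑ w ∈ Sf hn hk z1 d c2, Complex.log (Rho n k c (f w c))) c2 := by
    apply DifferentiableAt.fun_sum
    intro w hw
    have hw' := (mem_Sf hn hk z1 d c2 w).mp hw
    refine (hT1 w hw).2.2.2.1.clog ?_
    rw [(hT1 w hw).2.1]
    exact hsl w hw'.1 hw'.2
  exact hd.congr_of_eventuallyEq hev

end MPN_

open MPN_ in
theorem p_MPN : T_MPN := by
  intro n k c1 z1 δ0 hn hk hz hR hδ0 hrep
  have hz' : Fx n k c1 z1 := hz
  -- the isolated fixed point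
  obtain ⟨δ1, hδ1, hδ1e, hδ1o⟩ : ∃ δ1 : ℝ, 0 < δ1 ∧ δ1 ≤ δ0 / 2 ∧
      ∀ z ∈ Metric.closedBall z1 δ1, Fx n k c1 z → z = z1 := by
    have h1 : ({z : ℂ | Fx n k c1 z} \ {z1})ᶜ ∈ 𝓝 z1 := by
      apply ((fin hn hk c1).subset sdiff_subset).isClosed.isOpen_compl.mem_nhds
      simp
    obtain ⟨r, hr, hr'⟩ := Metric.nhds_basis_closedBall.mem_iff.mp h1
    refine ⟨min r (δ0 / 2), lt_min hr (by linarith), min_le_right _ _, ?_⟩
    intro z hz' hfx
    by_contra hnn
    have h2 := hr' (Metric.closedBall_subset_closedBall (min_le_left _ _) hz')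
    exact h2 ⟨hfx, hnn⟩
  have hδ1δ0 : δ1 < δ0 := by linarith
  -- nearness
  have hnear : ∀ η : ℝ, 0 < η → ∀ᶠ c in 𝓝 c1, ∀ z ∈ Metric.closedBall z1 δ1, Fx n k c z →
      z ∈ Metric.ball z1 η := by
    intro η hη
    refine comp_near (isCompact_closedBall z1 δ1) Metric.isOpen_ball ?_
    intro z hz' hfx
    rw [hδ1o z hz' hfx]
    exact Metric.mem_ball_self hη
  have hrh : ∀ η : ℝ, 0 < η → ∀ᶠ c in 𝓝 c1, ∀ z ∈ Metric.closedBall z1 δ1, Fx n k c z →
      ‖Rho n k c z - 1‖ < η := by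
    intro η hη
    have h1 : ContinuousAt (fun x : ℂ × ℂ => Rho n k x.1 x.2 - 1) (c1, z1) :=
      (CNT_contR n k).continuousAt.sub (continuousAt_const (y := (1 : ℂ)))
    have h2 : ∀ᶠ x : ℂ × ℂ in 𝓝 (c1, z1), ‖Rho n k x.1 x.2 - 1‖ < η := by
      refine h1.norm.eventually_lt continuousAt_const ?_
      show ‖Rho n k c1 z1 - 1‖ < η
      rw [hR, sub_self, norm_zero]
      exact hη
    obtain ⟨d, hd, hd'⟩ := Metric.eventually_nhds_iff_ball.mp h2
    filter_upwards [hnear d hd, Metric.ball_mem_nhds c1 hd] with c b1 b2 z hz' hfx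
    have h3 := b1 z hz' hfx
    refine hd' (c, z) ?_
    rw [Metric.mem_ball, Prod.dist_eq, max_lt_iff]
    exact ⟨b2, h3⟩
  -- the radius
  have hev : ∀ᶠ c in 𝓝 c1, c ∈ Metric.ball c1 δ0 ∧
      (∀ z ∈ Metric.closedBall z1 δ1, Fx n k c z → z ∈ Metric.ball z1 δ1) ∧
      (∀ z ∈ Metric.closedBall z1 δ1, Fx n k c z → ‖Rho n k c z - 1‖ < 1 / 2) ∧
      ∃ z : ℂ, ‖z - z1‖ < δ1 ∧ Fx n k c z := by
    filter_upwards [Metric.ball_mem_nhds c1 hδ0, hnear δ1 hδ1,
      hrh (1 / 2) (by norm_num), ex_fix hn hk hz' hδ1] with c b2 b3 b4 b5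
    exact ⟨b2, b3, b4, b5⟩
  obtain ⟨δ, hδ, hb⟩ := Metric.eventually_nhds_iff_ball.mp hev
  have hslit : ∀ c ∈ Metric.ball c1 δ, ∀ z : ℂ, ‖z - z1‖ < δ1 → Fx n k c z →
      Rho n k c z ∈ slitPlane := by
    intro c hc z hz' hfx
    have h1 := (hb c hc).2.2.1 z (by rw [mem_closedBall_iff_norm]; exact hz'.le) hfx
    have h2 : Rho n k c z = 1 + (Rho n k c z - 1) := by ring
    rw [h2]
    exact Complex.mem_slitPlane_of_norm_lt_one (by linarith)
  have hrep' : ∀ c ∈ Metric.ball c1 δ, c ≠ c1 → ∀ z ∈ Sf hn hk z1 δ1 c,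
      0 < Real.log ‖Rho n k c z‖ := by
    intro c hc hne z hz'
    rw [mem_Sf] at hz'
    have h1 := (hb c hc).1
    rw [mem_ball_iff_norm] at h1
    exact Real.log_pos (hrep c z hne h1 (by linarith [hz'.1]) hz'.2)
  set h0 : ℂ → ℂ := Function.update (hf hn hk z1 δ1) c1 0 with hh0
  have hdoff : ∀ c ∈ Metric.ball c1 δ, c ≠ c1 → DifferentiableAt ℂ (hf hn hk z1 δ1) c := by
    intro c hc hcne
    obtain ⟨b2, b3, b4, b5⟩ := hb c hc
    refine diff_at hn hk ?_ ?_ (hslit c hc)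
    · intro z hz' hfx
      have := b3 z hz' hfx
      rwa [mem_ball_iff_norm] at this
    · intro z hz' hfx h1
      rw [mem_ball_iff_norm] at b2
      have h2 := hrep c z hcne b2 (by linarith) hfx
      rw [h1, norm_one] at h2
      exact lt_irrefl _ h2
  have heq : ∀ c : ℂ, c ≠ c1 → h0 c = hf hn hk z1 δ1 c := by
    intro c hc'
    rw [hh0, Function.update_of_ne hc']
  have h01 : h0 c1 = 0 := by
    rw [hh0, Function.update_self]
  have hdoff' : DifferentiableOn ℂ h0 (Metric.ball c1 δ \ {c1}) := by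
    intro c hc'
    have h1 := hdoff c hc'.1 hc'.2
    have h2 : h0 =ᶠ[𝓝 c] hf hn hk z1 δ1 := by
      filter_upwards [isOpen_compl_singleton.mem_nhds
        (show c ∈ ({c1} : Set ℂ)ᶜ from hc'.2)] with ν hν
      exact heq ν hν
    exact (h1.congr_of_eventuallyEq h2).differentiableWithinAt
  have hcont : ContinuousAt h0 c1 := by
    rw [Metric.continuousAt_iff']
    intro ε hε
    rw [h01]
    -- the logarithm is continuous at one
    set N : ℝ := (n : ℝ) ^ k with hN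
    have hn0 : (0 : ℝ) < n := by exact_mod_cast (by omega : 0 < n)
    have hN0 : 0 < N := by positivity
    have h1 : ContinuousAt Complex.log 1 := continuousAt_clog (by simp)
    have h2 : 0 < ε / (2 * N) := by positivity
    rw [Metric.continuousAt_iff] at h1
    obtain ⟨η, hη, hη'⟩ := h1 (ε / (2 * N)) h2
    filter_upwards [hrh η hη] with c b1
    by_cases hc' : c = c1
    · rw [hc', h01, dist_self]
      exact hε
    rw [heq c hc', dist_zero_right]
    unfold hf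
    have h3 : ‖∑ z ∈ Sf hn hk z1 δ1 c, Complex.log (Rho n k c z)‖ ≤
        (Sf hn hk z1 δ1 c).card * (ε / (2 * N)) := by
      rw [← nsmul_eq_mul]
      refine (norm_sum_le _ _).trans (Finset.sum_le_card_nsmul _ _ _ ?_)
      intro z hz'
      rw [mem_Sf] at hz'
      have h4 := b1 z (by rw [mem_closedBall_iff_norm]; exact hz'.1.le) hz'.2
      have h5 := hη' (x := Rho n k c z) (by rw [dist_eq_norm]; exact h4)
      rw [Complex.log_one, dist_zero_right] at h5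
      exact h5.le
    have h6 : ((Sf hn hk z1 δ1 c).card : ℝ) ≤ N := by
      rw [hN]
      exact_mod_cast card_le hn hk c _ fun z hz' => ((mem_Sf hn hk z1 δ1 c z).mp hz').2
    have h7 : ((Sf hn hk z1 δ1 c).card : ℝ) * (ε / (2 * N)) ≤ N * (ε / (2 * N)) :=
      mul_le_mul_of_nonneg_right h6 h2.le
    have h8 : N * (ε / (2 * N)) = ε / 2 := by field_simp
    linarith
  have hd : DifferentiableOn ℂ h0 (Metric.ball c1 δ) :=
    (Complex.differentiableOn_compl_singleton_and_continuousAt_iff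
      (Metric.ball_mem_nhds c1 hδ)).mp ⟨hdoff', hcont⟩
  have hsum : ∀ c : ℂ, c ≠ c1 → (h0 c).re = ∑ z ∈ Sf hn hk z1 δ1 c, Real.log ‖Rho n k c z‖ := by
    intro c hcne
    rw [heq c hcne]
    unfold hf
    rw [Complex.re_sum]
    exact Finset.sum_congr rfl fun z _ => Complex.log_re _
  have hre : ∀ c ∈ Metric.ball c1 δ, 0 ≤ (h0 c).re := by
    intro c hc
    by_cases hne : c = c1
    · rw [hne, h01, zero_re]
    · rw [hsum c hne]
      exact Finset.sum_nonneg fun z hz' => (hrep' c hc hne z hz').le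
  have hzero := Pool.Agent.PSat.MPL_.re_zero hδ hd h01 hre
  -- a parameter different from `c1`
  have hc : c1 + ((δ / 2 : ℝ) : ℂ) ∈ Metric.ball c1 δ := by
    rw [mem_ball_iff_norm, add_sub_cancel_left, Complex.norm_real,
      Real.norm_of_nonneg (by linarith)]
    linarith
  have hne : c1 + ((δ / 2 : ℝ) : ℂ) ≠ c1 := by
    intro h1
    have h2 : ((δ / 2 : ℝ) : ℂ) = 0 := by
      have h3 : c1 + ((δ / 2 : ℝ) : ℂ) = c1 + 0 := by rw [h1, add_zero]
      exact add_left_cancel h3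
    have h4 : δ / 2 = 0 := by exact_mod_cast h2
    linarith
  obtain ⟨z, hz1, hz2⟩ := (hb _ hc).2.2.2
  have hzS : z ∈ Sf hn hk z1 δ1 (c1 + ((δ / 2 : ℝ) : ℂ)) := (mem_Sf _ _ _ _ _ _).mpr ⟨hz1, hz2⟩
  have h3 : 0 < ∑ z ∈ Sf hn hk z1 δ1 (c1 + ((δ / 2 : ℝ) : ℂ)),
      Real.log ‖Rho n k (c1 + ((δ / 2 : ℝ) : ℂ)) z‖ :=
    Finset.sum_pos (fun w hw => hrep' _ hc hne w hw) ⟨z, hzS⟩
  rw [← hsum _ hne, hzero _ hc] at h3
  exact lt_irrefl _ h3

end Pool.Agent.CGP
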