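import Pool.Agent.CGP.Targets2
import Pool.Agent.CGP.BasicN
import Pool.Agent.PSat.Basic

/-!
# CGP: NMN, an attracting cycle excludes multipliers one (all `n`)
-/

set_option autoImplicit false

open Complex Filter Topology Set
open Pool.Agent.Limb (F)
open Pool.Agent.PLim (Rho)

namespace Pool.Agent.CGP

theorem p_NMN (h1 : T_MPN) (h2 : Pool.Agent.PLim.T_ATN) (h3 : Pool.Agent.PLim.T_FINF)
    (h4 : Pool.Agent.PLim.T_LOCZ) : T_NMN := by
  intro n k K c z z' hn hk hK hz hR hz' hR'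
  have hR1 : 1 ≤ ‖Rho n k c z'‖ := by rw [hR', norm_one]
  have hne : Rho n K c z ≠ 1 := by
    intro h
    rw [h, norm_one] at hR
    exact lt_irrefl _ hR
  obtain ⟨δ, r, zf, -, -, hL⟩ := h4 n K c z 1 hn one_pos hz hne
  have hzf : ContinuousAt zf c :=
    (hL.diff.differentiableAt (Metric.ball_mem_nhds _ hL.hδ)).continuousAt
  have hpair : ContinuousAt (fun c' : ℂ => (c', zf c')) c := continuousAt_id.prodMk hzf
  have hcR : ContinuousAt (fun c' : ℂ => Rho n K c' (zf c')) c :=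
    ContinuousAt.comp (f := fun c' : ℂ => (c', zf c'))
      (g := fun q : ℂ × ℂ => Rho n K q.1 q.2)
      (Pool.Agent.PLim.CNT_contR n K).continuousAt hpair
  have hcI : ∀ j : ℕ, ContinuousAt (fun c' : ℂ => (F n c')^[j] (zf c')) c := fun j =>
    ContinuousAt.comp (f := fun c' : ℂ => (c', zf c'))
      (g := fun q : ℂ × ℂ => (F n q.1)^[j] q.2)
      (Pool.Agent.PLim.CNT_contI n j).continuousAt hpair
  -- the attracting cycle persists
  have e1 : ∀ᶠ c' in 𝓝 c, ‖Rho n K c' (zf c')‖ < 1 := by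
    have h5 := hcR.norm
    have h6 : ‖Rho n K c (zf c)‖ < 1 := by
      rw [hL.zf0]
      exact hR
    exact h5.eventually (gt_mem_nhds h6)
  -- it stays away from `z'`
  have e2 : ∀ᶠ q : ℂ × ℂ in 𝓝 (c, z'), ∀ j ∈ Finset.range K, (F n q.1)^[j] (zf q.1) ≠ q.2 := by
    rw [Filter.eventually_all_finset]
    intro j _
    have h6 : ContinuousAt (fun q : ℂ × ℂ => (F n q.1)^[j] (zf q.1) - q.2) (c, z') := by
      refine ContinuousAt.sub ?_ continuous_snd.continuousAt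
      exact ContinuousAt.comp (f := fun q : ℂ × ℂ => q.1)
        (g := fun c' : ℂ => (F n c')^[j] (zf c')) (hcI j) continuous_fst.continuousAt
    have h7 : (F n c)^[j] (zf c) - z' ≠ 0 := by
      rw [hL.zf0]
      exact sub_ne_zero.2 (sep hk hz hR hz' hR1 j)
    filter_upwards [h6.eventually_ne h7] with q hq h8
    exact hq (sub_eq_zero.2 h8)
  -- no multiplier one nearby
  have e3 : ∀ᶠ c' in 𝓝 c, c' ≠ c → ∀ w : ℂ, (F n c')^[k] w = w → Rho n k c' w ≠ 1 := by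
    have h8 := (h3 n k hn hk).subset
      (Set.sdiff_subset : {c' : ℂ | ∃ w : ℂ, (F n c')^[k] w = w ∧ Rho n k c' w = 1} \ {c} ⊆ _)
    have h9 : ({c' : ℂ | ∃ w : ℂ, (F n c')^[k] w = w ∧ Rho n k c' w = 1} \ {c})ᶜ ∈ 𝓝 c :=
      h8.isClosed.isOpen_compl.mem_nhds (fun h => h.2 rfl)
    filter_upwards [h9] with c' hc' hcc w hw hRw
    exact hc' ⟨⟨w, hw, hRw⟩, hcc⟩
  have e4 : ∀ᶠ q : ℂ × ℂ in 𝓝 (c, z'), (‖Rho n K q.1 (zf q.1)‖ < 1 ∧
      (q.1 ≠ c → ∀ w : ℂ, (F n q.1)^[k] w = w → Rho n k q.1 w ≠ 1) ∧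
      q.1 ∈ Metric.ball c δ) ∧
      ∀ j ∈ Finset.range K, (F n q.1)^[j] (zf q.1) ≠ q.2 := by
    refine Filter.Eventually.and ?_ e2
    have h10 : Tendsto (fun q : ℂ × ℂ => q.1) (𝓝 (c, z')) (𝓝 c) :=
      continuous_fst.continuousAt
    exact h10.eventually (e1.and (e3.and (Metric.ball_mem_nhds _ hL.hδ)))
  obtain ⟨δ0, hδ0, hq⟩ := (Pool.Agent.PSat.near_iff (P := fun c' z'' =>
    (‖Rho n K c' (zf c')‖ < 1 ∧
      (c' ≠ c → ∀ w : ℂ, (F n c')^[k] w = w → Rho n k c' w ≠ 1) ∧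
      c' ∈ Metric.ball c δ) ∧
      ∀ j ∈ Finset.range K, (F n c')^[j] (zf c') ≠ z'')).1 e4
  refine h1 n k c z' δ0 hn hk hz' hR' hδ0 ?_
  intro c' z'' hcc hc' hz'' hfix
  obtain ⟨⟨ha, hb, hd⟩, he⟩ := hq c' z'' hc' hz''
  by_contra hcon
  have hle : ‖Rho n k c' z''‖ ≤ 1 := not_lt.mp hcon
  obtain ⟨j, hj⟩ := h2 n K k c' (zf c') z'' hn hK hk (hL.fix c' hd) hfix ha hle
    (hb hcc z'' hfix)
  refine he (j % K) (Finset.mem_range.2 (Nat.mod_lt _ (by omega))) ?_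
  rw [fix_mod (hL.fix c' hd) j]
  exact hj

end Pool.Agent.CGP
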