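import Pool.Agent.CGP.Targets2
import Pool.Agent.CGP.BasicN
import Pool.Agent.PLim.CNT

/-!
# CGP: REP, the continuation of a repelling cycle is repelling
-/

set_option autoImplicit false

open Complex Filter Topology Set
open Pool.Agent.Limb (F)
open Pool.Agent.PLim (Rho)

namespace Pool.Agent.CGP

namespace REP_

/-- iterates of continuous functions along a continuous parameter are continuous -/
lemma contOn_iter {n : ℕ} (j : ℕ) {P X : ℂ → ℂ} {S : Set ℂ} (hP : ContinuousOn P S)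
    (hX : ContinuousOn X S) : ContinuousOn (fun v => (F n (P v))^[j] (X v)) S :=
  ContinuousOn.congr
    ((Pool.Agent.PLim.CNT_contI n j).comp_continuousOn (hP.prodMk hX)) (fun _ _ => rfl)

end REP_

open REP_ in
theorem p_REP (h1 : T_NMN) (h2 : T_KUN) (h3 : Pool.Agent.PLim.T_ATN) : T_REP := by
  intro n K k P X Z v0 hA hk hZc hZ hv0 hv0R v1 hv1
  by_contra hcon
  have hle : ‖Rho n k (P v1) (Z v1)‖ ≤ 1 := not_lt.mp hcon
  have hne : Rho n k (P v1) (Z v1) ≠ 1 :=
    h1 n k K (P v1) (X v1) (Z v1) hA.hn hk hA.hK (hA.fix v1 hv1) (hA.att v1 hv1) (hZ v1 hv1)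
  obtain ⟨j, hj⟩ := h3 n K k (P v1) (X v1) (Z v1) hA.hn hA.hK hk (hA.fix v1 hv1) (hZ v1 hv1)
    (hA.att v1 hv1) hle hne
  have hkK : 1 ≤ k * K := Nat.one_le_iff_ne_zero.2
    (Nat.mul_ne_zero (by have := hk; omega) (by have := hA.hK; omega))
  have hPc : ContinuousOn P (Metric.ball 0 1) := hA.dP.continuousOn
  have hEq : EqOn Z (fun v => (F n (P v))^[j] (X v)) (Metric.ball 0 1) := by
    refine h2 n (k * K) (Metric.ball 0 1) P Z (fun v => (F n (P v))^[j] (X v)) v1 hA.hn hkK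
      (convex_ball (0 : ℂ) 1).isPreconnected hPc hZc (contOn_iter j hPc hA.cX) ?_ hv1 hj.symm
    intro v hv
    refine ⟨fix_mul (hZ v hv) K, ?_, ?_⟩
    · have h4 : (F n (P v))^[K * k] (X v) = X v := fix_mul (hA.fix v hv) k
      rw [Nat.mul_comm] at h4
      exact fix_iter h4 j
    · exact h1 n (k * K) K (P v) (X v) (Z v) hA.hn hkK hA.hK (hA.fix v hv) (hA.att v hv)
        (fix_mul (hZ v hv) K)
  exact sep hk (hA.fix v0 hv0) (hA.att v0 hv0) (hZ v0 hv0) hv0R.le j (hEq hv0).symm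

end Pool.Agent.CGP
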