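import Pool.Agent.CGP.Final
import Pool.Agent.CGP.P_GPC
import Pool.Agent.CGP.P_MPN
import Pool.Agent.CGP.P_NMN
import Pool.Agent.CGP.P_KSN
import Pool.Agent.CGP.P_KUN
import Pool.Agent.CGP.P_HNK
import Pool.Agent.CGP.P_REP
import Pool.Agent.CGP.P_EXA
import Pool.Agent.PLim.All4
import Pool.Agent.PSat.LIFC

/-!
# CGP: the gap on the whole component
-/

set_option autoImplicit false

namespace Pool.Agent.CGP

theorem a_NMN : T_NMN :=
  p_NMN p_MPN Pool.Agent.PLim.a_ATN Pool.Agent.PLim.a_FINF Pool.Agent.PLim.a_LOCZ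
theorem a_KSN : T_KSN := p_KSN Pool.Agent.PSat.p_LIFC Pool.Agent.PLim.a_LOCZ
theorem a_KUN : T_KUN := p_KUN Pool.Agent.PLim.a_LOCZ
theorem a_REP : T_REP := p_REP a_NMN a_KUN Pool.Agent.PLim.a_ATN
theorem a_EXA : T_EXA := p_EXA a_NMN a_KUN
theorem a_GPC : T_GPC := p_GPC a_GAP a_KSN a_NMN a_REP a_EXA p_HNK

end Pool.Agent.CGP
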