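import Pool.Agent.CGP.Targets

/-!
# CGP: the gap for the multipliers in terms of one point of the cycle
-/

set_option autoImplicit false

open Complex Filter Topology Set
open Pool.Agent.Limb (F)
open Pool.Agent.PLim (Rho)

namespace Pool.Agent.CGP

namespace GapOf_

lemma per_mul {f : ℂ → ℂ} {x : ℂ} {k : ℕ} (h : f^[k] x = x) (m : ℕ) : f^[k * m] x = x := by
  induction m with
  | zero => rfl
  | succ m ih => rw [Nat.mul_succ, Function.iterate_add_apply, h, ih]

end GapOf_

open GapOf_ in
theorem gap_of (h : T_GAP) : ∀ R : ℕ, ∃ e : ℝ, 0 < e ∧ ∀ (n K k : ℕ) (c z w : ℂ), 2 ≤ n →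
    1 ≤ K → (fun x : ℂ => x ^ n + c)^[K] 0 = 0 → 1 ≤ k → (fun x : ℂ => x ^ n + c)^[k] z = z →
    (∀ j : ℕ, 0 < j → j < k → (fun x : ℂ => x ^ n + c)^[j] z ≠ z) →
    deriv (fun x : ℂ => x ^ n + c)^[k] z = w → 1 < ‖w‖ → K ≤ R * k → 1 + e ≤ ‖w‖ := by
  intro R
  obtain ⟨e, he, hG⟩ := h R
  refine ⟨e, he, ?_⟩
  intro n K k c z w hn hK hc hk hz hx hw h1 hR
  have hF : F n c = fun x : ℂ => x ^ n + c := rfl
  rw [← hF] at hc hz hx hw
  have hw' : Rho n k c ((F n c)^[0] z) = w := hw
  have key : ∀ l m : ℕ, l < k → m < k → l ≤ m → (F n c)^[l] z = (F n c)^[m] z → l = m := by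
    intro l m hl hm hlm heq
    by_contra hne
    have hlt : l < m := lt_of_le_of_ne hlm hne
    -- apply the iterate of order `k - m`
    have h2 : (F n c)^[k - m + l] z = (F n c)^[k - m + m] z := by
      rw [Function.iterate_add_apply, heq, ← Function.iterate_add_apply]
    rw [Nat.sub_add_cancel hm.le, hz] at h2
    exact hx (k - m + l) (by omega) (by omega) h2
  have D : Dt n K k c (fun l => (F n c)^[l] z) := by
    refine ⟨hn, hK, hc, hk, ?_, ?_, ?_, ?_⟩
    · intro l
      exact (Function.iterate_succ_apply' _ _ _).symm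
    · intro l
      show (F n c)^[l + k] z = (F n c)^[l] z
      rw [Function.iterate_add_apply, hz]
    · intro l m hl hm heq
      rcases le_total l m with h3 | h3
      · exact key l m hl hm h3 heq
      · exact (key m l hm hl h3 heq.symm).symm
    · show 1 < ‖Rho n k c ((F n c)^[0] z)‖
      rw [hw']
      exact h1
  have := hG n K k c _ D hR
  rw [← hw']
  exact this

end Pool.Agent.CGP
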