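import Pool.Agent.CGP.Defs

/-!
# CGP: targets

Theorem G (GAP): for every `R` there is `e > 0` such that, if `0` has period `K` under `z ^ n + c`,
every repelling cycle of exact period `k ≥ K / R` has a multiplier of modulus at least `1 + e`.

The proof copies D of CUSP (`Pool/Agent/CUSP/Targets2.lean`) with the finite set
`PP n K c` (the orbit of the critical value `c`, which is periodic) in place of the tips; with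
`Φ = (F n c)^[k * q]` in place of `(F 2 c)^[k]`, where `q` is such that the multiplier
`(Rho n k c (z 0)) ^ q` of the cycle under `Φ` is close to one (Dirichlet).  There are no arcs.
-/

set_option autoImplicit false

open Complex Filter Topology Set
open Pool.Agent.Limb (F)
open Pool.Agent.PLim (Rho)

namespace Pool.Agent.CGP

/-- CRN (`Pool/Agent/CUSP/P_CRV.lean` for all `n`): critical points of the iterates.
Chain rule; if `(F n c)^[i] x = 0` with `i < m` then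
`(F n c)^[m] x = (F n c)^[m - 1 - i] ((F n c) 0) = (F n c)^[m - 1 - i] c`. -/
def T_CRN : Prop := ∀ (n : ℕ) (c : ℂ) (m : ℕ) (x : ℂ), 2 ≤ n →
  deriv ((F n c)^[m]) x = ∏ i ∈ Finset.range m, ((n : ℂ) * ((F n c)^[i] x) ^ (n - 1)) ∧
  ((∀ j < m, (F n c)^[m] x ≠ (F n c)^[j] c) → deriv ((F n c)^[m]) x ≠ 0)

/-- LUN (`Pool/Agent/CUSP/P_LFU.lean` for all `n`): uniqueness of lifts. -/
def T_LUN : Prop := ∀ (n : ℕ) (c : ℂ) (m : ℕ) (W : Set ℂ) (g g' : ℂ → ℂ) (t0 : ℂ),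
  IsPreconnected W → ContinuousOn g W → ContinuousOn g' W →
  (∀ t ∈ W, (F n c)^[m] (g t) = (F n c)^[m] (g' t) ∧ deriv ((F n c)^[m]) (g t) ≠ 0) →
  t0 ∈ W → g t0 = g' t0 → EqOn g g' W

/-- LFN (`Pool/Agent/CUSP/P_LFT.lean` for all `n`): existence of lifts over convex sets, by
induction on `m`: a holomorphic function without zeros on a convex open set has a holomorphic
`n`-th root with a given value at `t0` (for instance `exp (L / n)`, `L` a logarithm, or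
`Complex.exists_continuousOn_pow_eq`). -/
def T_LFN : Prop := ∀ (n : ℕ) (c : ℂ) (m : ℕ) (W : Set ℂ) (h : ℂ → ℂ), 2 ≤ n → IsOpen W →
  Convex ℝ W → DifferentiableOn ℂ h W → (∀ t ∈ W, ∀ j < m, h t ≠ (F n c)^[j] c) →
  ∀ t0 ∈ W, ∀ z0 : ℂ, (F n c)^[m] z0 = h t0 →
  ∃ g : ℂ → ℂ, DifferentiableOn ℂ g W ∧ g t0 = z0 ∧ ∀ t ∈ W, (F n c)^[m] (g t) = h t

/-- FAC (from CRN): elementary facts.  `(F n c)^[K] c = c` since `c = F n c 0`.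
(b) if `z l = (F n c)^[j] c` then some point of the cycle is `(F n c)^[K - 1] c = 0`, so the
multiplier of the cycle is zero; `PP` is finite and not empty.
(c) a factor of the product in CRN is zero, as `0` is among the first `K` points of the orbit of
`(F n c)^[j] c`.  (d) the chain rule. -/
def T_FAC : Prop := ∀ (n K k : ℕ) (c : ℂ) (z : ℕ → ℂ), Dt n K k c z →
  (∀ j : ℕ, (F n c)^[j] c ∈ PP n K c) ∧
  (∀ l : ℕ, 0 < Rp n K c (z l) ∧ (∃ j < K, ‖z l - (F n c)^[j] c‖ = Rp n K c (z l)) ∧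
    ∀ j : ℕ, Rp n K c (z l) ≤ ‖z l - (F n c)^[j] c‖) ∧
  (∀ m j : ℕ, K ≤ m → deriv ((F n c)^[m]) ((F n c)^[j] c) = 0) ∧
  (∀ m l : ℕ, (F n c)^[k * m] (z l) = z l ∧
    deriv ((F n c)^[k * m]) (z l) = Rho n k c (z 0) ^ m) ∧
  ∀ l : ℕ, ∃ m < k, z l = z m

/-- BRN (from LFN, FAC): the branch; `LFN` with `W = ball (z l) (Rp n K c (z l))`, `h = id`,
`t0 = z0 = z l`; a right inverse is injective. -/
def T_BRN : Prop := ∀ (n K k : ℕ) (c : ℂ) (z : ℕ → ℂ), Dt n K k c z → ∀ l q : ℕ,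
  ∃ G : ℂ → ℂ, Bn n K (k * q) c (z l) G

/-- NFX (from BRN, KDI, LUN, CRN, FAC): no other periodic points near the cycle.
Let `ζ = z l`, `R = Rp n K c ζ`, `Φ = (F n c)^[k * q]`, `C` the constant of KDI,
`η = 1 / (16 * C)`.
Let `G j` be the branch (BRN) for `(F n c)^[k * (q * j)]`, so `‖deriv (G j) ζ‖ = ‖λ‖ ^ (- q j) ≤ 1`
(`λ = Rho n k c (z 0)`; chain rule and (d) of FAC) and `‖deriv (G 1) ζ‖ ≥ 1 / 2`.
By the ball inclusion of KDI `x = G 1 x'` with `x' ∈ ball ζ R`; then `x' = Φ x = x`, so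
`G 1 x = x`.
Induction: `G j x = x`.  On the segment `[ζ, x]` the function `G j` takes values in `ball ζ R` (KDI:
`‖G j y - ζ‖ ≤ C * ‖deriv (G j) ζ‖ * ‖y - ζ‖ ≤ R / 16`), so `G (j + 1) = G 1 ∘ G j` on the segment
by LUN (both are continuous right inverses of `(F n c)^[k * (q * (j + 1))]` on the segment, equal at
`ζ`, and the derivative is not zero by CRN as no point of `ball ζ R` is of the form
`(F n c)^[i] c`).
Hence `‖x - ζ‖ = ‖G j x - G j ζ‖ ≤ C * ‖λ‖ ^ (- q j) * ‖x - ζ‖` for all `j`, so `x = ζ`. -/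
def T_NFX : Prop := ∃ η : ℝ, 0 < η ∧ η ≤ 1 / 16 ∧ ∀ (n K k : ℕ) (c : ℂ) (z : ℕ → ℂ),
  Dt n K k c z → ∀ (l q : ℕ) (x : ℂ), 1 ≤ q → ‖Rho n k c (z 0) ^ q‖ ≤ 2 →
  ‖x - z l‖ ≤ η * Rp n K c (z l) → (F n c)^[k * q] x = x → x = z l

/-- NIG (from KDI, HRK, NFX, FAC, and TCR of AEN; copy of `Pool/Agent/CUSP/P_NID.lean`, whose lemmas
`grow`, `bnd`, `chain` can be used): the branch is close to the identity.
Let `ζ = z l`, `R = Rp n K c ζ`, `g u = (G (ζ + R u) - ζ) / R` on the unit disc: injective,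
`g 0 = 0`, `deriv g 0 = μ = (Rho n k c (z 0) ^ q)⁻¹`, `‖μ‖ < 1`, `‖μ - 1‖ ≤ ε`, `‖μ‖ ≥ 1 / 2`.
The function `y u = (g u - u) / u` (`dslope`) has no zeros in `ball 0 η` (`y 0 = μ - 1 ≠ 0`, and
`g u = u` gives a fixed point of `(F n c)^[k * q]`, so `u = 0` by NFX), and `‖y‖ ≤ C + 1` by KDI.
HRK: `‖y u‖ ^ 3 ≤ (C + 1) ^ 2 * ε` for `‖u‖ ≤ η / 2`.  Then the chain of discs of NID. -/
def T_NIG : Prop := ∀ e : ℝ, 0 < e → ∃ ε : ℝ, 0 < ε ∧ ∀ (n K k : ℕ) (c : ℂ) (z : ℕ → ℂ),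
  Dt n K k c z → ∀ (l q : ℕ) (G : ℂ → ℂ), 1 ≤ q → ‖Rho n k c (z 0) ^ q - 1‖ ≤ ε →
  Bn n K (k * q) c (z l) G →
  ∀ x : ℂ, ‖x - z l‖ ≤ 7 / 8 * Rp n K c (z l) → ‖G x - x‖ ≤ e * Rp n K c (z l)

/-- COG (from LFN, LUN, CRN, KDI, and TCR of AEN; copy of `Pool/Agent/CUSP/P_CON.lean`):
continuation of a branch close to the identity. -/
def T_COG : Prop := ∃ C : ℝ, 1 ≤ C ∧ ∀ (n m : ℕ) (c y y' : ℂ) (ρ e : ℝ) (g : ℂ → ℂ), 2 ≤ n →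
  0 < ρ → 0 ≤ e → e ≤ 1 / 100 → ‖y' - y‖ ≤ ρ / 12 →
  (∀ x ∈ Metric.ball y' ρ, ∀ j < m, x ≠ (F n c)^[j] c) →
  DifferentiableOn ℂ g (Metric.ball y ρ) → (∀ x ∈ Metric.ball y ρ, (F n c)^[m] (g x) = x) →
  (∀ x : ℂ, ‖x - y‖ ≤ ρ / 6 → ‖g x - x‖ ≤ e * ρ) →
  ∃ g' : ℂ → ℂ, DifferentiableOn ℂ g' (Metric.ball y' ρ) ∧
    (∀ x ∈ Metric.ball y' ρ, (F n c)^[m] (g' x) = x) ∧
    ∀ x : ℂ, ‖x - y'‖ ≤ ρ / 6 → ‖g' x - x‖ ≤ C * √e * ρ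

/-- RNC (from COG, FAC; copy of `Pool/Agent/CUSP/P_RNG.lean`): the iterate is close to the identity
on a circle without points of `PP` (every `(F n c)^[i] c` is in `PP`, FAC (a)). -/
def T_RNC : Prop := ∀ δ e1 : ℝ, 0 < δ → δ ≤ 1 / 16 → 0 < e1 → ∃ e : ℝ, 0 < e ∧
  ∀ (n K k : ℕ) (c : ℂ) (z : ℕ → ℂ), Dt n K k c z → ∀ (l q j : ℕ) (G : ℂ → ℂ) (r : ℝ),
  Bn n K (k * q) c (z l) G → j < K → ‖z l - (F n c)^[j] c‖ = Rp n K c (z l) →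
  (∀ x : ℂ, ‖x - z l‖ ≤ 7 / 8 * Rp n K c (z l) → ‖G x - x‖ ≤ e * Rp n K c (z l)) →
  Rp n K c (z l) / 4 ≤ r → r ≤ Rp n K c (z l) / 2 →
  (∀ i < K, δ * Rp n K c (z l) ≤ |‖(F n c)^[i] c - (F n c)^[j] c‖ - r|) →
  ∀ x : ℂ, ‖x - (F n c)^[j] c‖ = r → ‖(F n c)^[k * q] x - x‖ ≤ e1 * r

/-- TPC (from NIG, RNC, BRN, FAC; copy of `Pool/Agent/CUSP/P_TPS.lean`): many points of `PP` near a
bad point.  In place of W1: if `‖(F n c)^[k * q] x - x‖ ≤ r / 2` for `‖x - τ‖ = r`,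
`τ = (F n c)^[j] c`, then by Cauchy's estimate `‖deriv ((F n c)^[k * q]) τ - 1‖ ≤ 1 / 2`, but the
derivative is zero by FAC (c), `K ≤ k * q`. -/
def T_TPC : Prop := ∀ K0 : ℕ, 1 ≤ K0 → ∃ ε : ℝ, 0 < ε ∧ ∀ (n K k : ℕ) (c : ℂ) (z : ℕ → ℂ),
  Dt n K k c z → ∀ l q : ℕ, 1 ≤ q → K ≤ k * q → ‖Rho n k c (z 0) ^ q - 1‖ ≤ ε →
  ∃ f : Fin K0 → ℕ, (∀ i, f i < K ∧ ‖(F n c)^[f i] c - z l‖ ≤ 2 * Rp n K c (z l)) ∧
    ∀ i i', i ≠ i' → Rp n K c (z l) / (16 * K0) ≤ ‖(F n c)^[f i] c - (F n c)^[f i'] c‖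

/-- CTR (from PAK, NET; copy of `Pool/Agent/CUSP/P_CTN.lean`): the count, with `K ≤ R * k` tips in
place of `k`. -/
def T_CTR : Prop := ∀ (η : ℝ) (R : ℕ), 0 < η → η ≤ 1 → ∃ K0 : ℕ, 1 ≤ K0 ∧ ∀ (K k : ℕ)
  (zz : Fin k → ℂ) (tt : Fin K → ℂ) (r : Fin k → ℝ), 1 ≤ k → K ≤ R * k → (∀ l, 0 < r l) →
  (∀ l m, l ≠ m → η * r l ≤ ‖zz l - zz m‖) →
  (∀ l, ∃ f : Fin K0 → Fin K, (∀ i, ‖tt (f i) - zz l‖ ≤ 2 * r l) ∧
    ∀ i i', i ≠ i' → r l / (16 * K0) ≤ ‖tt (f i) - tt (f i')‖) → False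

/-- DIR: Dirichlet.  Let `M' = max M 1`: there are `1 ≤ q' ≤ N` and an integer `p` with
`|q' * (M' * θ / (2 * π)) - p| ≤ 1 / (N + 1)`, `θ` an argument of `w`; `q = M' * q'`; take `N`
large for `ε` and `e` with `(1 + e) ^ (M' * N) ≤ 1 + ε / 2`. -/
def T_DIR : Prop := ∀ (M : ℕ) (ε : ℝ), 0 < ε → ∃ e : ℝ, 0 < e ∧ ∀ w : ℂ, 1 ≤ ‖w‖ →
  ‖w‖ < 1 + e → ∃ q : ℕ, 1 ≤ q ∧ M ≤ q ∧ ‖w ^ q - 1‖ ≤ ε

/-- GAP (from FAC, NFX, TPC, CTR, DIR).  `η` from NFX, `K0` from CTR (`η`, `R`), `ε` from TPC,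
`ε' = min ε 1`, `e` from DIR (`M = R`, `ε'`).  If the modulus of the multiplier `λ` is less than
`1 + e`: `q ≥ max 1 R` with `‖λ ^ q - 1‖ ≤ ε'`, so `K ≤ R * k ≤ k * q` and `‖λ ^ q‖ ≤ 2`.
The points of the cycle are separated by NFX (`x = z m`), the points of `PP` are given by TPC;
CTR with `r l = Rp n K c (z l)`. -/
def T_GAP : Prop := ∀ R : ℕ, ∃ e : ℝ, 0 < e ∧ ∀ (n K k : ℕ) (c : ℂ) (z : ℕ → ℂ),
  Dt n K k c z → K ≤ R * k → 1 + e ≤ ‖Rho n k c (z 0)‖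

end Pool.Agent.CGP
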