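import Pool.Agent.AEN.Targets
import Pool.Agent.CGP.Targets

/-!
# CGP: targets, second part

The gap on the whole component (GPC): if `P` parametrizes parameters with an attracting cycle of
period `K` over the unit disc, with a centre at `0`, every repelling cycle of exact period
`k ≥ K / R` at the parameter `P v` has a multiplier of modulus at least `1 + t (1 - ‖v‖)`.
-/

set_option autoImplicit false

open Complex Filter Topology Set
open Pool.Agent.Limb (F)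
open Pool.Agent.PLim (Rho)

namespace Pool.Agent.CGP

/-- MPN (mechanical copy of `Pool/Agent/AEN/P_MPG.lean` with `n` in place of `2`): the minimum
principle. -/
def T_MPN : Prop := ∀ (n k : ℕ) (c1 z1 : ℂ) (δ0 : ℝ), 2 ≤ n → 1 ≤ k → (F n c1)^[k] z1 = z1 →
  Rho n k c1 z1 = 1 → 0 < δ0 → (∀ c z : ℂ, c ≠ c1 → ‖c - c1‖ < δ0 → ‖z - z1‖ < δ0 →
    (F n c)^[k] z = z → 1 < ‖Rho n k c z‖) → False

/-- NMN (from MPN, and ATN, FINF, LOCZ of PLIM; mechanical copy of `Pool/Agent/AEN/P_NM1.lean` with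
`n` in place of `2`): an attracting cycle excludes multipliers one. -/
def T_NMN : Prop := ∀ (n k K : ℕ) (c z z' : ℂ), 2 ≤ n → 1 ≤ k → 1 ≤ K → (F n c)^[K] z = z →
  ‖Rho n K c z‖ < 1 → (F n c)^[k] z' = z' → Rho n k c z' ≠ 1

/-- KSN (from LIFC of PSAT and LOCZ of PLIM; mechanical copy of `Pool/Agent/AEN/P_KSC.lean` with `n`
in place of `2`): continuation of fixed points of the iterate of order `k`. -/
def T_KSN : Prop := ∀ (n k : ℕ) (W : Set ℂ) (Q : ℂ → ℂ), 2 ≤ n → 1 ≤ k → IsOpen W → Convex ℝ W →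
  DifferentiableOn ℂ Q W →
  (∀ m ∈ W, ∀ z : ℂ, (F n (Q m))^[k] z = z → Rho n k (Q m) z ≠ 1) →
  ∀ m0 ∈ W, ∀ z0 : ℂ, (F n (Q m0))^[k] z0 = z0 →
  ∃ Z : ℂ → ℂ, DifferentiableOn ℂ Z W ∧ Z m0 = z0 ∧ ∀ m ∈ W, (F n (Q m))^[k] (Z m) = Z m

/-- KUN (from LOCZ of PLIM; mechanical copy of `Pool/Agent/AEN/P_KUQ.lean` with `n` in place of
`2`): uniqueness of the continuation. -/
def T_KUN : Prop := ∀ (n k : ℕ) (S : Set ℂ) (Q Z Z' : ℂ → ℂ) (m0 : ℂ), 2 ≤ n → 1 ≤ k →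
  IsPreconnected S → ContinuousOn Q S → ContinuousOn Z S → ContinuousOn Z' S →
  (∀ m ∈ S, (F n (Q m))^[k] (Z m) = Z m ∧ (F n (Q m))^[k] (Z' m) = Z' m ∧
    Rho n k (Q m) (Z m) ≠ 1) → m0 ∈ S → Z m0 = Z' m0 → EqOn Z Z' S

/-- HNK: Harnack's inequality for functions of modulus larger than one.  `w = exp L` on the unit
disc (a primitive of `w' / w`), `0 < (L v).re = log ‖w v‖`; the function
`φ v = (L v - L 0) / (L v + conj (L 0))` maps the unit disc into itself and `φ 0 = 0`, so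
`‖φ v‖ ≤ ‖v‖` (Schwarz), which gives `(1 - ‖v‖) * (L 0).re ≤ (1 + ‖v‖) * (L v).re`.  See
`Pool.Agent.PLim.COV_.harnack` in `Pool/Agent/PLim/COV.lean`. -/
def T_HNK : Prop := ∀ w : ℂ → ℂ, DifferentiableOn ℂ w (Metric.ball 0 1) →
  (∀ v ∈ Metric.ball (0 : ℂ) 1, 1 < ‖w v‖) → ∀ v ∈ Metric.ball (0 : ℂ) 1,
  (1 - ‖v‖) * Real.log ‖w 0‖ ≤ 2 * Real.log ‖w v‖

/-- Parameters with an attracting cycle of period `K` over the unit disc. -/
structure Att (n K : ℕ) (P X : ℂ → ℂ) : Prop where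
  hn : 2 ≤ n
  hK : 1 ≤ K
  dP : DifferentiableOn ℂ P (Metric.ball 0 1)
  cX : ContinuousOn X (Metric.ball 0 1)
  fix : ∀ v ∈ Metric.ball (0 : ℂ) 1, (F n (P v))^[K] (X v) = X v
  att : ∀ v ∈ Metric.ball (0 : ℂ) 1, ‖Rho n K (P v) (X v)‖ < 1

/-- REP (from NMN, KUN, and ATN of PLIM): the continuation of a repelling cycle is repelling.
Suppose `‖Rho n k (P v1) (Z v1)‖ ≤ 1`.  It is not one by NMN, so by ATN there is `j` with
`(F n (P v1))^[j] (X v1) = Z v1`.  Both `v ↦ (F n (P v))^[j] (X v)` and `Z` are continuous on the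
disc and fixed by the iterate of order `k * K`, whose multiplier at `Z v` is not one (NMN); by KUN
they are equal on the disc.  At `v0`: `Rho n (k * K) (P v0) (Z v0)` is equal to
`Rho n K (P v0) (X v0) ^ k`, of modulus `< 1`, and to `Rho n k (P v0) (Z v0) ^ K`, of modulus `> 1`
(`Pool.Agent.PSat.rho_mul`, `fix_iter`, `rho_iter` in `Pool/Agent/PSat/Basic.lean`, as in `NM1_.sep`
of `Pool/Agent/AEN/P_NM1.lean`, for all `n`). -/
def T_REP : Prop := ∀ (n K k : ℕ) (P X Z : ℂ → ℂ) (v0 : ℂ), Att n K P X → 1 ≤ k →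
  ContinuousOn Z (Metric.ball 0 1) →
  (∀ v ∈ Metric.ball (0 : ℂ) 1, (F n (P v))^[k] (Z v) = Z v) →
  v0 ∈ Metric.ball (0 : ℂ) 1 → 1 < ‖Rho n k (P v0) (Z v0)‖ →
  ∀ v ∈ Metric.ball (0 : ℂ) 1, 1 < ‖Rho n k (P v) (Z v)‖

/-- EXA (from NMN, KUN): the exact period is constant.  If `(F n (P v1))^[j] (Z v1) = Z v1` then
`v ↦ (F n (P v))^[j] (Z v)` and `Z` are fixed by the iterate of order `k` and equal at `v1`, so they
are equal on the disc by KUN (with NMN), and at `v0` there is a contradiction. -/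
def T_EXA : Prop := ∀ (n K k : ℕ) (P X Z : ℂ → ℂ) (v0 : ℂ), Att n K P X → 1 ≤ k →
  ContinuousOn Z (Metric.ball 0 1) →
  (∀ v ∈ Metric.ball (0 : ℂ) 1, (F n (P v))^[k] (Z v) = Z v) →
  v0 ∈ Metric.ball (0 : ℂ) 1 → ∀ j : ℕ, (F n (P v0))^[j] (Z v0) ≠ Z v0 →
  ∀ v ∈ Metric.ball (0 : ℂ) 1, (F n (P v))^[j] (Z v) ≠ Z v

/-- GPC (from GAP, KSN, NMN, REP, EXA, HNK). -/
def T_GPC : Prop := ∀ R : ℕ, ∃ t : ℝ, 0 < t ∧ ∀ (n K k : ℕ) (P X : ℂ → ℂ), Att n K P X →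
  (F n (P 0))^[K] 0 = 0 → 1 ≤ k → K ≤ R * k → ∀ v ∈ Metric.ball (0 : ℂ) 1, ∀ z : ℂ,
  (F n (P v))^[k] z = z → (∀ j : ℕ, 0 < j → j < k → (F n (P v))^[j] z ≠ z) →
  1 < ‖Rho n k (P v) z‖ → 1 + t * (1 - ‖v‖) ≤ ‖Rho n k (P v) z‖

end Pool.Agent.CGP
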